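import Pool.Agent.W842.BV.Stms

/-!
# Part EXT of project BV
(helper349)
-/

set_option autoImplicit false

namespace Pool.Agent.W349.BVExt

open Finset Pool.Agent.W842.BV

theorem t_EXT : S_EXT := by
  intro n s H hn hH T hT hs
  by_contra hcon
  push Not at hcon
  have h1 : (T.biUnion id).card ≤ s + 3 := by omega
  have h2 : s + 3 ≤ Fintype.card (Fin n) := by rwa [Fintype.card_fin]
  obtain ⟨S, hS1, hS2⟩ := Finset.exists_superset_card_eq h1 h2
  have h3 := hH.2 S hS2
  have h4 : T ⊆ H.filter (fun e => e ⊆ S) := by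
    intro e he
    rw [Finset.mem_filter]
    refine ⟨hT he, ?_⟩
    intro x hx
    exact hS1 (Finset.mem_biUnion.2 ⟨e, he, hx⟩)
  have h5 := Finset.card_le_card h4
  omega

end Pool.Agent.W349.BVExt
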