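import Pool.Agent.W495.NC.Hyp

set_option autoImplicit false

namespace Pool.Agent.W349.NCSmooth

open MvPolynomial Pool.Agent.W495.NC

/-- The value of the form. -/
theorem aeval_form (p : ℕ) [NeZero p] {K Ω : Type} [Field K] [Field Ω] [Algebra K Ω] (t : K)
    (x : Fin p → Ω) :
    aeval x (form p t) = ∑ i : Fin p, algebraMap K Ω t ^ (i : ℕ) * x i ^ p +
      algebraMap K Ω t ^ p * ∑ i : Fin p, x i ^ (p - 1) * x (i + 1) := by
  unfold form
  simp only [map_add, map_sum, map_mul, map_pow, aeval_C, aeval_X]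

/-- The values of the partial derivatives of the form. -/
theorem aeval_pderiv (p : ℕ) [hp : Fact p.Prime] {K Ω : Type} [Field K] [CharP K p] [Field Ω]
    [Algebra K Ω] (t : K) (x : Fin p → Ω) (i : Fin p) :
    aeval x (pderiv i (form p t)) = algebraMap K Ω t ^ p *
      (x (i - 1) ^ (p - 1) - x i ^ (p - 2) * x (i + 1)) := by
  haveI : CharP Ω p := charP_of_injective_algebraMap (algebraMap K Ω).injective p
  have hp0 : ((p : ℕ) : Ω) = 0 := CharP.cast_eq_zero Ω p
  have hp1 : (((p - 1 : ℕ) : ℕ) : Ω) = -1 := by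
    rw [Nat.cast_sub hp.out.one_lt.le, hp0]
    simp
  unfold form
  have h1 : ∀ j : Fin p, aeval x (pderiv i (C (t ^ (j : ℕ)) * (X j : MvPolynomial (Fin p) K) ^ p))
      = 0 := by
    intro j
    rw [pderiv_C_mul, pderiv_pow]
    simp only [map_mul, map_natCast, hp0, zero_mul, mul_zero]
  have h2 : ∀ j : Fin p, aeval x (pderiv i ((X j : MvPolynomial (Fin p) K) ^ (p - 1) * X (j + 1)))
      = (if j = i then - (x i ^ (p - 2) * x (i + 1)) else 0) +
        (if j = i - 1 then x (i - 1) ^ (p - 1) else 0) := by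
    intro j
    have e1 : aeval x (pderiv i (X j : MvPolynomial (Fin p) K)) = if j = i then (1 : Ω) else 0 := by
      by_cases hj : j = i
      · rw [if_pos hj, hj, pderiv_X_self, map_one]
      · rw [if_neg hj, pderiv_X_of_ne hj, map_zero]
    have e2 : aeval x (pderiv i (X (j + 1) : MvPolynomial (Fin p) K)) =
        if j = i - 1 then (1 : Ω) else 0 := by
      by_cases hj : j + 1 = i
      · rw [if_pos (eq_sub_of_add_eq hj), hj, pderiv_X_self, map_one]
      · rw [if_neg (fun h => hj (by rw [h]; exact sub_add_cancel i 1)), pderiv_X_of_ne hj,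
          map_zero]
    rw [pderiv_mul, pderiv_pow, map_add, map_mul, map_mul, map_mul, map_mul, e1, e2]
    simp only [map_pow, map_natCast, aeval_X, hp1]
    have h3 : p - 1 - 1 = p - 2 := by omega
    rw [h3]
    by_cases hj : j = i
    · rw [if_pos hj, if_pos hj, hj]
      by_cases hk : i = i - 1
      · rw [if_pos hk, if_pos hk, ← hk]
        ring
      · rw [if_neg hk, if_neg hk]
        ring
    · rw [if_neg hj, if_neg hj]
      by_cases hk : j = i - 1
      · rw [if_pos hk, if_pos hk, hk]
        ring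
      · rw [if_neg hk, if_neg hk]
        ring
  rw [map_add, map_sum, pderiv_C_mul, map_sum, map_add, map_sum, map_mul, map_sum,
    Finset.sum_congr rfl (fun j _ => h1 j), Finset.sum_congr rfl (fun j _ => h2 j),
    Finset.sum_add_distrib, Finset.sum_ite_eq', Finset.sum_ite_eq', if_pos (Finset.mem_univ _),
    if_pos (Finset.mem_univ _), Finset.sum_const_zero, aeval_C, map_pow]
  ring

open Fin.NatCast Fin.CommRing in
theorem smooth : Smooth := by
  intro p hp hp2 k _ _ Ω _ _ x hF hd
  by_contra hx
  have hprime := hp.out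
  have hp3 : 3 ≤ p := by
    have := hprime.two_le
    omega
  letI : Algebra k Ω := ((algebraMap (RatFunc k) Ω).comp (algebraMap k (RatFunc k))).toAlgebra
  haveI : IsScalarTower k (RatFunc k) Ω := IsScalarTower.of_algebraMap_eq' rfl
  haveI : CharP (RatFunc k) p :=
    charP_of_injective_algebraMap (algebraMap k (RatFunc k)).injective p
  set t : Ω := algebraMap (RatFunc k) Ω RatFunc.X with ht
  have htr : Transcendental k t := by
    have h1 : Transcendental k (RatFunc.X : RatFunc k) := RatFunc.transcendental_X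
    exact (transcendental_algebraMap_iff (algebraMap (RatFunc k) Ω).injective).2 h1
  have ht0 : t ≠ 0 := by
    intro h
    exact htr (by rw [h]; exact isAlgebraic_zero)
  -- the equations
  have hE : ∀ i : Fin p, x (i - 1) ^ (p - 1) = x i ^ (p - 2) * x (i + 1) := by
    intro i
    have h1 := hd i
    rw [aeval_pderiv] at h1
    rcases mul_eq_zero.1 h1 with h2 | h2
    · exact absurd (pow_eq_zero_iff (by omega)|>.1 h2) ht0
    · exact sub_eq_zero.1 h2
  have hE' : ∀ i : Fin p, x i ^ (p - 1) = x (i + 1) ^ (p - 2) * x (i + 1 + 1) := by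
    intro i
    have h1 := hE (i + 1)
    rwa [add_sub_cancel_right] at h1
  -- all are nonzero
  have hne1 : ∀ i : Fin p, x i ≠ 0 → x (i + 1) ≠ 0 := by
    intro i hi h0
    have h1 := hE' i
    rw [h0, zero_pow (by omega), zero_mul] at h1
    exact hi (pow_eq_zero_iff (by omega) |>.1 h1)
  obtain ⟨j0, hj0⟩ : ∃ j, x j ≠ 0 := by
    by_contra hc
    push Not at hc
    exact hx (funext hc)
  have hneN : ∀ n : ℕ, x (j0 + (n : Fin p)) ≠ 0 := by
    intro n
    induction n with
    | zero => simpa using hj0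
    | succ n ih =>
      have := hne1 _ ih
      rwa [add_assoc, ← Nat.cast_succ] at this
  have hcast : ∀ i : Fin p, ((i : ℕ) : Fin p) = i := fun i => Fin.cast_val_eq_self i
  have hne : ∀ i : Fin p, x i ≠ 0 := by
    intro i
    have := hneN ((i - j0 : Fin p) : ℕ)
    rwa [hcast, add_sub_cancel] at this
  -- ratios
  set y : Fin p → Ω := fun i => x (i + 1) / x i with hy
  have hyne : ∀ i, y i ≠ 0 := fun i => div_ne_zero (hne _) (hne _)
  have hy1 : ∀ i, y (i + 1) = (y i) ^ (-((p : ℤ) - 1)) := by
    intro i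
    have h1 := hE' i
    have h2 : y (i + 1) * y i ^ (p - 1) = 1 := by
      show x (i + 1 + 1) / x (i + 1) * (x (i + 1) / x i) ^ (p - 1) = 1
      rw [div_pow, h1]
      have h3 : x (i + 1) ^ (p - 1) = x (i + 1) ^ (p - 2) * x (i + 1) := by
        rw [← pow_succ]
        congr 1
        omega
      rw [h3]
      have a1 := hne (i + 1)
      have a2 := hne (i + 1 + 1)
      have a3 : x (i + 1) ^ (p - 2) ≠ 0 := pow_ne_zero _ a1
      field_simp
    rw [zpow_neg]
    have h4 : (p : ℤ) - 1 = ((p - 1 : ℕ) : ℤ) := by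
      have := hprime.one_lt
      omega
    rw [h4, zpow_natCast]
    exact eq_inv_of_mul_eq_one_left h2
  have hyn : ∀ (i : Fin p) (n : ℕ), y (i + (n : Fin p)) = y i ^ ((-((p : ℤ) - 1)) ^ n) := by
    intro i n
    induction n with
    | zero => simp
    | succ n ih =>
      rw [Nat.cast_succ, ← add_assoc, hy1, ih, ← zpow_mul, pow_succ]
  have hroot : ∀ i, y i ^ ((-((p : ℤ) - 1)) ^ p - 1) = 1 := by
    intro i
    have h1 := hyn i p
    have h2 : ((p : ℕ) : Fin p) = 0 := Fin.natCast_self p
    rw [h2, add_zero] at h1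
    rw [zpow_sub_one₀ (hyne i), ← h1, mul_inv_cancel₀ (hyne i)]
  have hodd : Odd p := hprime.odd_of_ne_two hp2
  have hN : (-((p : ℤ) - 1)) ^ p - 1 ≠ 0 := by
    rw [hodd.neg_pow]
    have h1 : (0 : ℤ) ≤ ((p : ℤ) - 1) ^ p := by
      apply pow_nonneg
      omega
    omega
  have hint : ∀ i, IsIntegral k (y i) := by
    intro i
    have h1 : y i ^ ((-((p : ℤ) - 1)) ^ p - 1).natAbs = 1 := by
      rcases Int.natAbs_eq ((-((p : ℤ) - 1)) ^ p - 1) with h | h
      · have := hroot i
        rw [h, zpow_natCast] at this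
        exact this
      · have := hroot i
        rw [h, zpow_neg, zpow_natCast, inv_eq_one] at this
        exact this
    refine IsIntegral.of_pow (n := ((-((p : ℤ) - 1)) ^ p - 1).natAbs) (by omega) ?_
    rw [h1]
    exact isIntegral_one
  -- z_i
  set z : Fin p → Ω := fun i => x i / x 0 with hz
  have hz0 : z 0 = 1 := div_self (hne 0)
  have hzn : ∀ n : ℕ, IsAlgebraic k (z (n : Fin p)) := by
    intro n
    induction n with
    | zero =>
      rw [Nat.cast_zero, hz0]
      exact isAlgebraic_one
    | succ n ih =>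
      have h1 : z ((n + 1 : ℕ) : Fin p) = z (n : Fin p) * y (n : Fin p) := by
        rw [Nat.cast_succ]
        show x ((n : Fin p) + 1) / x 0 = x (n : Fin p) / x 0 * (x ((n : Fin p) + 1) / x (n : Fin p))
        have a1 := hne (n : Fin p)
        have a2 := hne 0
        field_simp
      rw [h1]
      exact ih.mul (hint _).isAlgebraic
  have hzalg : ∀ i : Fin p, IsAlgebraic k (z i) := by
    intro i
    have := hzn (i : ℕ)
    rwa [hcast] at this
  -- the equation for z
  have hFz : ∑ i : Fin p, t ^ (i : ℕ) * z i ^ p +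
      t ^ p * ∑ i : Fin p, z i ^ (p - 1) * z (i + 1) = 0 := by
    rw [aeval_form] at hF
    have h1 : ∑ i : Fin p, t ^ (i : ℕ) * z i ^ p = (∑ i : Fin p, t ^ (i : ℕ) * x i ^ p) / x 0 ^ p := by
      rw [Finset.sum_div]
      refine Finset.sum_congr rfl fun i _ => ?_
      show t ^ (i : ℕ) * (x i / x 0) ^ p = _
      rw [div_pow, mul_div_assoc]
    have h2 : ∑ i : Fin p, z i ^ (p - 1) * z (i + 1) =
        (∑ i : Fin p, x i ^ (p - 1) * x (i + 1)) / x 0 ^ p := by
      rw [Finset.sum_div]
      refine Finset.sum_congr rfl fun i _ => ?_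
      show (x i / x 0) ^ (p - 1) * (x (i + 1) / x 0) = _
      have h3 : x 0 ^ p = x 0 ^ (p - 1) * x 0 := by
        rw [← pow_succ]
        congr 1
        omega
      rw [h3, div_pow, div_mul_div_comm]
    rw [h1, h2, ← mul_div_assoc, ← add_div, hF, zero_div]
  -- algebraic over the algebraic closure
  let E : IntermediateField k Ω := algebraicClosure k Ω
  have hzE : ∀ i, z i ∈ E := fun i => (mem_algebraicClosure_iff).2 (hzalg i)
  let w : Fin p → E := fun i => ⟨z i, hzE i⟩
  let q : Polynomial E := ∑ i : Fin p, Polynomial.C (w i ^ p) * Polynomial.X ^ (i : ℕ) +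
    Polynomial.C (∑ i : Fin p, w i ^ (p - 1) * w (i + 1)) * Polynomial.X ^ p
  have hq0 : q.coeff 0 = 1 := by
    show (∑ i : Fin p, Polynomial.C (w i ^ p) * Polynomial.X ^ (i : ℕ) +
      Polynomial.C (∑ i : Fin p, w i ^ (p - 1) * w (i + 1)) * Polynomial.X ^ p).coeff 0 = 1
    rw [Polynomial.coeff_add, Polynomial.finset_sum_coeff, Polynomial.coeff_C_mul_X_pow,
      if_neg (by omega), add_zero, Finset.sum_eq_single 0]
    · rw [Polynomial.coeff_C_mul_X_pow, if_pos (by simp)]
      have : w 0 = 1 := Subtype.ext hz0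
      rw [this, one_pow]
    · intro i _ hi
      rw [Polynomial.coeff_C_mul_X_pow, if_neg]
      intro h
      apply hi
      exact Fin.ext (by simpa using h.symm)
    · intro h
      exact absurd (Finset.mem_univ _) h
  have hqne : q ≠ 0 := by
    intro h
    rw [h, Polynomial.coeff_zero] at hq0
    exact zero_ne_one hq0
  have hqt : Polynomial.aeval t q = 0 := by
    have h1 : ∀ e : E, algebraMap E Ω e = (e : Ω) := fun e => rfl
    show Polynomial.aeval t (∑ i : Fin p, Polynomial.C (w i ^ p) * Polynomial.X ^ (i : ℕ) +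
      Polynomial.C (∑ i : Fin p, w i ^ (p - 1) * w (i + 1)) * Polynomial.X ^ p) = 0
    rw [map_add, map_sum, map_mul, Polynomial.aeval_C, map_sum, map_pow, Polynomial.aeval_X]
    rw [← hFz]
    congr 1
    · refine Finset.sum_congr rfl fun i _ => ?_
      rw [map_mul, Polynomial.aeval_C, map_pow, map_pow, Polynomial.aeval_X, mul_comm]
      rfl
    · rw [mul_comm]
      congr 1
  have halgE : IsAlgebraic E t := ⟨q, hqne, hqt⟩
  haveI : Algebra.IsAlgebraic k E := inferInstance
  exact htr (halgE.restrictScalars k)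

end Pool.Agent.W349.NCSmooth
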