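import Pool.Agent.W894.HT.Lib

/-!
Project HT (helper894), task HT-PSTG: the stages of a formula are computable in polynomial time.
-/

set_option autoImplicit false

namespace Pool.Agent.W349.HTPstg

open Pool.Agent.NPC Pool.Agent.NPC.Cnt Pool.Agent.W894.HT

variable {α β : Type} [TEnc α] [TEnc β]

lemma ddg_cons [DecidableEq β] (a : β) (l : List β) :
    ddg (a :: l) = if a ∈ ddg l then ddg l else a :: ddg l := rfl

lemma sz_ddg [DecidableEq β] : ∀ l : List β, sz (ddg l) ≤ sz l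
  | [] => le_refl _
  | a :: l => by
    have ih := sz_ddg l
    rw [ddg_cons]
    split_ifs
    · simp; omega
    · simp; omega

/-- removal of repetitions in polynomial time -/
lemma poly_ddg [DecidableEq β] {l : α → List β} (hl : NPC.Poly l) : NPC.Poly (fun a => ddg (l a)) := by
  obtain ⟨r, hr⟩ := hl.sz_le
  refine NPC.Poly.foldr (l := l) (s := fun _ => ([] : List β))
    (F := fun _ a s => if a ∈ s then s else a :: s) hl (NPC.Poly.const [])
    (NPC.Poly.ite (NPC.Poly.decide_mem (NPC.Poly.fst (NPC.Poly.snd NPC.Poly.id)) (NPC.Poly.snd (NPC.Poly.snd NPC.Poly.id)))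
      (NPC.Poly.snd (NPC.Poly.snd NPC.Poly.id))
      (NPC.Poly.cons (NPC.Poly.fst (NPC.Poly.snd NPC.Poly.id)) (NPC.Poly.snd (NPC.Poly.snd NPC.Poly.id)))) r ?_
  intro a k _
  exact (sz_ddg ((l a).drop k)).trans ((NPC.Poly.sz_drop_le _ _).trans (hr a))

/-- the copies of an assignment -/
lemma poly_occ (b : Bool) : NPC.Poly (fun x : CNF ℕ × ℕ => occ x.1 x.2 b) := by
  exact NPC.Poly.flatMap (l := fun x : CNF ℕ × ℕ => x.1.zipIdx)
    (F := fun (x : CNF ℕ × ℕ) (p : List (Bool × ℕ) × ℕ) =>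
      (List.range p.1.length).map fun r => (x.2, p.2, r, b))
    (NPC.Poly.zipIdx (NPC.Poly.fst NPC.Poly.id))
    (NPC.Poly.map (l := fun y : (CNF ℕ × ℕ) × (List (Bool × ℕ) × ℕ) => List.range y.2.1.length)
      (F := fun (y : (CNF ℕ × ℕ) × (List (Bool × ℕ) × ℕ)) (r : ℕ) => (y.1.2, y.2.2, r, b))
      (NPC.Poly.range_length (NPC.Poly.fst (NPC.Poly.snd NPC.Poly.id)))
      (NPC.Poly.pair (NPC.Poly.snd (NPC.Poly.fst (NPC.Poly.fst NPC.Poly.id)))
        (NPC.Poly.pair (NPC.Poly.snd (NPC.Poly.snd (NPC.Poly.fst NPC.Poly.id)))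
          (NPC.Poly.pair (NPC.Poly.snd NPC.Poly.id) (NPC.Poly.const b)))))

/-- the stages of the variables -/
lemma poly_vst : NPC.Poly (fun x : CNF ℕ × ℕ => vst x.1 x.2) :=
  NPC.Poly.pair (poly_occ false) (poly_occ true)

/-- the stages of the clauses -/
lemma poly_cst : NPC.Poly (fun x : CNF ℕ × (List (Bool × ℕ) × ℕ) => cst x.2.1 x.2.2) := by
  exact NPC.Poly.pair (NPC.Poly.const [])
    (NPC.Poly.map (l := fun x : CNF ℕ × (List (Bool × ℕ) × ℕ) => x.2.1.zipIdx)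
      (F := fun (x : CNF ℕ × (List (Bool × ℕ) × ℕ)) (q : (Bool × ℕ) × ℕ) =>
        (q.1.2, x.2.2, q.2, q.1.1))
      (NPC.Poly.zipIdx (NPC.Poly.fst (NPC.Poly.snd NPC.Poly.id)))
      (NPC.Poly.pair (NPC.Poly.snd (NPC.Poly.fst (NPC.Poly.snd NPC.Poly.id)))
        (NPC.Poly.pair (NPC.Poly.snd (NPC.Poly.snd (NPC.Poly.fst NPC.Poly.id)))
          (NPC.Poly.pair (NPC.Poly.snd (NPC.Poly.snd NPC.Poly.id)) (NPC.Poly.fst (NPC.Poly.fst (NPC.Poly.snd NPC.Poly.id)))))))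

theorem main : S_PSTG := by
  exact NPC.Poly.cons (NPC.Poly.const _) (NPC.Poly.append
    (NPC.Poly.map (l := fun φ : CNF ℕ => ddg (φ.flatten.map Prod.snd)) (F := fun φ v => vst φ v)
      (poly_ddg (NPC.Poly.map (l := fun φ : CNF ℕ => φ.flatten) (F := fun _ q => Prod.snd q)
        (NPC.Poly.flatten NPC.Poly.id) (NPC.Poly.snd (NPC.Poly.snd NPC.Poly.id)))) poly_vst)
    (NPC.Poly.map (l := fun φ : CNF ℕ => φ.zipIdx) (F := fun _ p => cst p.1 p.2)
      (NPC.Poly.zipIdx NPC.Poly.id) poly_cst))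

end Pool.Agent.W349.HTPstg
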