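import Pool.Agent.W749.NM.Stm
import Pool.Agent.W63.MTFin

/-!
# Project NM, part FINN (adapted from `Pool.Agent.W63.MTFin`)
-/

set_option autoImplicit false

namespace Pool.Agent.W349.NMFin

open Pool.Agent.W428.MOT
open Pool.Agent.W426.SM (AffInd gord ford IsRay face)
open Pool.Agent.W749.NM
open Pool.Agent.W63.MTFin
open Pool.Agent.H628R4.TP (IsLocalBFunction weylS)

theorem chi_empty {K : Type} [Field K] {R : Type} [CommRing R] (M : Meas K R) (ι : Type)
    [Fintype ι] : M.χ ι (∅ : Set (Pt K ι)) = 0 := by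
  have h := M.add (ι := ι) ∅ ∅ Constr.empty Constr.empty (by simp)
  rw [Set.union_empty] at h
  simpa using h

theorem const_sp {k : Type} [Field k] [Algebra k ℂ] {n r : ℕ} (A : Fin n → ℕ)
    (m : Fin r → Fin n → ℕ) (c : Fin r → k) (e : ℕ)
    (h : MvPolynomial.constantCoeff (sp A m c e) = 0) :
    MvPolynomial.constantCoeff (sp A m (fun j => algebraMap k ℂ (c j)) e) = 0 := by
  have h1 : sp A m (fun j => algebraMap k ℂ (c j)) e =
      MvPolynomial.map (algebraMap k ℂ) (sp A m c e) := by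
    simp only [sp, map_mul, map_prod, map_pow, map_sum, MvPolynomial.map_C, MvPolynomial.map_X]
  rw [h1, MvPolynomial.constantCoeff_map, h, map_zero]

theorem amin_nonempty {n r : ℕ} (hr : 0 < r) (m : Fin r → Fin n → ℕ) (u : Fin n → ℕ) :
    (amin m u).Nonempty := by
  haveI : Nonempty (Fin r) := ⟨⟨0, hr⟩⟩
  obtain ⟨j, hj⟩ := exists_eq_ciInf_of_finite (f := fun j => ∑ i, u i * m j i)
  exact ⟨j, by simp only [amin, Finset.mem_filter, Finset.mem_univ, true_and]; exact hj⟩

/-- if no positive vector has type `τ`, the polynomials vanish -/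
theorem cp_zero {n r : ℕ} (A : Fin n → ℕ) (m : Fin r → Fin n → ℕ) (e : ℕ)
    (τ : Finset (Fin r)) (h : ∀ u : Fin n → ℕ, (∀ i, 0 < u i) → amin m u ≠ τ) (N M : ℕ) :
    cp A m e Finset.univ τ N M = 0 := by
  unfold cp
  apply Finset.sum_eq_zero
  intro u hu
  rw [Finset.mem_filter] at hu
  exact absurd hu.2.2.1 (h u fun i => Nat.pos_of_ne_zero ((hu.2.1 i).mpr (Finset.mem_univ i)))

/-- the base is empty when only one monomial is minimal -/
theorem B1N_empty {K : Type} [Field K] {n r : ℕ} (A : Fin n → ℕ) (m : Fin r → Fin n → ℕ)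
    (c : Fin r → K) (hc : ∀ j, c j ≠ 0) (e : ℕ) (τ : Finset (Fin r)) (hτ : τ.card = 1) :
    B1N A m c e 0 Finset.univ τ = ∅ := by
  obtain ⟨j, rfl⟩ := Finset.card_eq_one.mp hτ
  ext z
  simp only [Set.mem_empty_iff_false, iff_false]
  rintro ⟨-, h2, -, h4, -⟩
  simp only [gbar, Finset.sum_singleton] at h4
  rcases mul_eq_zero.mp h4 with h | h
  · exact hc j (by simpa [cb] using h)
  · obtain ⟨i, -, hi⟩ := Finset.prod_eq_zero_iff.mp h
    exact h2 i (Finset.mem_univ i) (by
      by_contra hne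
      exact pow_ne_zero _ hne hi)

theorem main (h1 : S_K0) (h2 : S_SumN) (h3 : S_RAT) (h4 : S_RootL) (h5 : S_CP1) : S_FINN := by
  classical
  intro k K _ _ _ _ n r A m c e hm hc hr0 he hA hcc
  have hk : CharZero k := RingHom.charZero (algebraMap k ℂ)
  have hK : CharZero K := charZero_of_injective_algebraMap (algebraMap k K).injective
  have hcC : ∀ j, algebraMap k ℂ (c j) ≠ 0 := fun j => by
    simpa using hc j
  have hcK : ∀ j, algebraMap k K (c j) ≠ 0 := fun j => by
    simpa using hc j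
  have hccC := const_sp A m c e hcc
  have h4' := h4 A m (fun j => algebraMap k ℂ (c j)) e hm hcC hr0 he hA hccC
  set x : Fin n → K := 0 with hx
  set J : Finset (Fin n) := Finset.univ with hJ
  have hJ' : ∀ i, i ∈ J ↔ x i = 0 := fun i => by simp [hJ, hx]
  obtain ⟨M₀, hM₀⟩ := h1 K
  set M := mapMeas M₀ (algebraMap (K0 K) (MK K)) with hM
  set Y : MK K := (((Lu K)⁻¹ : (MK K)ˣ) : MK K) with hY
  have hL : M.L * Y = 1 := L_mul hM₀
  have hsum := h2 M A m (fun j => algebraMap k K (c j)) e x J hJ' hm hcK hr0 he Y hL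
  choose l P hl hP using fun τ : Finset (Fin r) => h3 A m e J τ hr0 he
  set S₀ : Finset (ℤ × ℤ) := Finset.univ.biUnion fun τ : Finset (Fin r) =>
    (l τ).toFinset.image fun a => (-((∑ i, a i : ℕ) : ℤ), (ford A m e a : ℤ)) with hS₀
  set S : Finset (ℤ × ℤ) :=
    if ∃ u : Fin n → ℕ, (∀ i, 0 < u i) ∧ 2 ≤ (amin m u).card then insert (-1, (e : ℤ)) S₀
    else S₀ with hS
  have hS1 : (∃ u : Fin n → ℕ, (∀ i, 0 < u i) ∧ 2 ≤ (amin m u).card) →
      ((-1 : ℤ), (e : ℤ)) ∈ S := fun h => by
    rw [hS, if_pos h]; exact Finset.mem_insert_self _ _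
  have hSS : S₀ ⊆ S := by
    rw [hS]; split_ifs
    · exact Finset.subset_insert _ _
    · exact Finset.Subset.refl _
  have hS2 : ∀ τ, ∀ a ∈ l τ, (-((∑ i, a i : ℕ) : ℤ), (ford A m e a : ℤ)) ∈ S := fun τ a ha =>
    hSS (Finset.mem_biUnion.2 ⟨τ, Finset.mem_univ _,
      Finset.mem_image.2 ⟨a, List.mem_toFinset.2 ha, rfl⟩⟩)
  have hS3 : ∀ p ∈ S, (p = (-1, (e : ℤ)) ∧
      ∃ u : Fin n → ℕ, (∀ i, 0 < u i) ∧ 2 ≤ (amin m u).card) ∨ p ∈ S₀ := by
    intro p hp
    by_cases h : ∃ u : Fin n → ℕ, (∀ i, 0 < u i) ∧ 2 ≤ (amin m u).card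
    · rw [hS, if_pos h] at hp
      rcases Finset.mem_insert.1 hp with hp | hp
      · exact Or.inl ⟨hp, h⟩
      · exact Or.inr hp
    · rw [hS, if_neg h] at hp
      exact Or.inr hp
  refine ⟨S, fun p hp => ?_, ?_⟩
  · rcases hS3 p hp with ⟨rfl, u, hu1, hu2⟩ | hp
    · refine ⟨by norm_num, Int.natCast_pos.2 he, fun b hb => ?_⟩
      have := (h4' b hb).1 u hu1 hu2
      have h6 : (((-1 : ℤ) : ℂ) / ((e : ℤ) : ℂ)) = -(1 / (e : ℂ)) := by
        push_cast
        ring
      simp only [h6]
      exact this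
    · obtain ⟨τ, -, hp⟩ := Finset.mem_biUnion.1 hp
      obtain ⟨a, ha, rfl⟩ := Finset.mem_image.1 hp
      obtain ⟨ha1, ha2⟩ := hl τ a (List.mem_toFinset.1 ha)
      have hpos : 0 < ∑ i, a i := by
        by_contra hcon
        refine ha1.1 (funext fun i => ?_)
        have := Finset.sum_eq_zero_iff.1 (Nat.eq_zero_of_not_pos hcon) i (Finset.mem_univ i)
        exact this
      refine ⟨?_, Int.natCast_pos.2 ha2, fun b hb => ?_⟩
      · simp only [Left.neg_neg_iff]
        exact_mod_cast hpos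
      · have := (h4' b hb).2 a ha1 ha2
        have h6 : (((-((∑ i, a i : ℕ) : ℤ) : ℤ) : ℂ) / ((ford A m e a : ℤ) : ℂ)) =
            -(((∑ i, a i : ℕ) : ℂ) / ford A m e a) := by
          push_cast
          ring
        simp only [h6]
        exact this
  · -- the series
    set C : Finset (Fin r) → PowerSeries (MK K) := fun τ =>
      PowerSeries.map (ev K) (PowerSeries.mk fun N => cp A m e J τ N N) with hCdef
    have hC : ∀ τ, C τ ∈ ratRing K S := fun τ =>
      rat_mem _ (ford A m e) (P τ) (l τ) (fun a ha => ⟨(hl τ a ha).2, hS2 τ a ha⟩) (hP τ)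
    have hCc : ∀ τ N, PowerSeries.coeff N (C τ) =
        Polynomial.eval₂ (Int.castRingHom (MK K)) Y (cp A m e J τ N N) := fun τ N => by
      rw [hCdef, PowerSeries.coeff_map, PowerSeries.coeff_mk]
      rfl
    set D : Finset (Fin r) → PowerSeries (MK K) := fun τ => PowerSeries.mk fun N =>
      ∑ l ∈ Finset.Icc 1 N, if e * l ≤ N then Y ^ l * PowerSeries.coeff (N - e * l) (C τ) else 0
      with hDdef
    have hD : (∃ u : Fin n → ℕ, (∀ i, 0 < u i) ∧ 2 ≤ (amin m u).card) →
        ∀ τ, D τ ∈ ratRing K S := by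
      intro hex τ
      have h6 := geo_sum Y (fun N => PowerSeries.coeff N (C τ)) e he
      have h7 := geo_mul (K := K) (-1) (e : ℤ) (by exact_mod_cast he)
      rw [Int.toNat_natCast, zpow_neg_one] at h7
      have h8 : D τ = PowerSeries.C Y * PowerSeries.X ^ e * C τ * geo K (-1) (e : ℤ) := by
        have h9 : PowerSeries.mk (fun N => PowerSeries.coeff N (C τ)) = C τ := by
          ext N
          rw [PowerSeries.coeff_mk]
        rw [h9] at h6
        rw [← h6, mul_assoc, h7, mul_one]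
      rw [h8]
      exact (ratRing K S).mul_mem ((ratRing K S).mul_mem ((ratRing K S).mul_mem (C_mem _ _)
        ((ratRing K S).pow_mem (X_mem _) _)) (hC τ)) (geo_mem (p := (-1, (e : ℤ))) (hS1 hex))
    have hD0 : ∀ τ, (∀ u : Fin n → ℕ, (∀ i, 0 < u i) → amin m u ≠ τ) → D τ = 0 := by
      intro τ hτ
      ext N
      rw [hDdef, PowerSeries.coeff_mk, map_zero]
      apply Finset.sum_eq_zero
      intro i _
      rw [hCc, cp_zero A m e τ hτ, Polynomial.eval₂_zero, mul_zero, ite_self]
    have hDB : ∀ τ, PowerSeries.C (M.χ _ (B1N A m (fun j => algebraMap k K (c j)) e x J τ)) *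
        D τ ∈ ratRing K S := by
      intro τ
      by_cases hex : ∃ u : Fin n → ℕ, (∀ i, 0 < u i) ∧ 2 ≤ (amin m u).card
      · exact (ratRing K S).mul_mem (C_mem _ _) (hD hex τ)
      · by_cases hτ : ∃ u : Fin n → ℕ, (∀ i, 0 < u i) ∧ amin m u = τ
        · obtain ⟨u, hu1, hu2⟩ := hτ
          have hcard : τ.card = 1 := by
            have h6 : 0 < τ.card := by
              rw [← hu2]; exact Finset.card_pos.mpr (amin_nonempty hr0 m u)
            have h7 : ¬ 2 ≤ τ.card := by
              rw [← hu2]; intro h; exact hex ⟨u, hu1, h⟩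
            omega
          have h8 : B1N A m (fun j => algebraMap k K (c j)) e x J τ = ∅ :=
            B1N_empty A m _ hcK e τ hcard
          rw [h8, chi_empty, map_zero, zero_mul]
          exact (ratRing K S).zero_mem
        · push Not at hτ
          rw [hD0 τ hτ, mul_zero]
          exact (ratRing K S).zero_mem
    set F : PowerSeries (MK K) := ∑ τ : Finset (Fin r), PowerSeries.C (M.L ^ (free A m J τ).card) *
      (PowerSeries.C (M.χ _ (B0N A m (fun j => algebraMap k K (c j)) e x J τ)) * C τ +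
        PowerSeries.C (M.χ _ (B1N A m (fun j => algebraMap k K (c j)) e x J τ)) * D τ) with hF
    have hFmem : F ∈ ratRing K S := by
      refine (ratRing K S).sum_mem fun τ _ => (ratRing K S).mul_mem (C_mem _ _)
        ((ratRing K S).add_mem ((ratRing K S).mul_mem (C_mem _ _) (hC τ)) (hDB τ))
    have hz : zetaN (sp A m (fun j => algebraMap k K (c j)) e) x =
        PowerSeries.C (((Lu K) ^ (-(n : ℤ)) : (MK K)ˣ) : MK K) *
          (F - PowerSeries.C (PowerSeries.coeff 0 F)) := by
      rw [zetaN]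
      congr 1
      ext N
      by_cases hN : N = 0
      · subst hN
        rw [PowerSeries.coeff_mk, if_pos rfl, map_sub, PowerSeries.coeff_C, if_pos rfl,
          sub_self]
      · rw [PowerSeries.coeff_mk, if_neg hN, map_sub, PowerSeries.coeff_C, if_neg hN,
          sub_zero]
        have h6 := hsum N (by omega)
        have h7 : algebraMap (K0 K) (MK K) (cls (Fin n × Fin (N + 1))
            (JetN (sp A m (fun j => algebraMap k K (c j)) e) x N)) *
            (((Lu K) ^ (-((n * N : ℕ) : ℤ)) : (MK K)ˣ) : MK K) =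
            M.χ _ (JetN (sp A m (fun j => algebraMap k K (c j)) e) x N) * Y ^ (n * N) := by
          rw [zpow_neg, zpow_natCast, ← inv_pow, Units.val_pow_eq_pow_val, ← hM₀]
          rfl
        rw [h7, h6, hF, map_sum]
        refine Finset.sum_congr rfl fun τ _ => ?_
        rw [PowerSeries.coeff_C_mul, map_add, PowerSeries.coeff_C_mul, PowerSeries.coeff_C_mul,
          hCc, hDdef, PowerSeries.coeff_mk, Finset.mul_sum]
        congr 2
        refine Finset.sum_congr rfl fun i _ => ?_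
        split_ifs with hi
        · rw [hCc, h5 A m e J τ hr0 he N (N - e * i) (Nat.sub_le _ _), mul_assoc]
        · rw [mul_zero]
    rw [hz]
    exact (ratRing K S).mul_mem (C_mem _ _) ((ratRing K S).sub_mem hFmem (C_mem _ _))

end Pool.Agent.W349.NMFin
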