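import Pool.Agent.W894.HT.Lib

/-!
Project HT (helper894), task HT-PADD: the two extensions of a tournament are computable in
polynomial time.
-/

set_option autoImplicit false

namespace Pool.Agent.W349.HTPadd

open Pool.Agent.NPC Pool.Agent.W894.HT

theorem main : S_PADD := by
  constructor
  · exact NPC.Poly.append
      (NPC.Poly.map (l := fun p : List (List Bool) × ℕ => p.1.zipIdx)
        (F := fun (p : List (List Bool) × ℕ) (q : List Bool × ℕ) => q.1 ++ [!decide (q.2 = p.2)])
        (NPC.Poly.zipIdx (NPC.Poly.fst NPC.Poly.id))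
        (NPC.Poly.append (NPC.Poly.fst (NPC.Poly.snd NPC.Poly.id))
          (NPC.Poly.cons (NPC.Poly.not (NPC.Poly.decide_eq (NPC.Poly.snd (NPC.Poly.snd NPC.Poly.id))
            (NPC.Poly.snd (NPC.Poly.fst NPC.Poly.id)))) (NPC.Poly.const []))))
      (NPC.Poly.cons (NPC.Poly.append
        (NPC.Poly.map (l := fun p : List (List Bool) × ℕ => List.range p.1.length)
          (F := fun (p : List (List Bool) × ℕ) (j : ℕ) => decide (j = p.2))
          (NPC.Poly.range_length (NPC.Poly.fst NPC.Poly.id))
          (NPC.Poly.decide_eq (NPC.Poly.snd NPC.Poly.id) (NPC.Poly.snd (NPC.Poly.fst NPC.Poly.id))))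
        (NPC.Poly.const [false])) (NPC.Poly.const []))
  · exact NPC.Poly.append
      (NPC.Poly.map (l := fun A : List (List Bool) => A)
        (F := fun (_ : List (List Bool)) (r : List Bool) => r ++ [true, false])
        NPC.Poly.id (NPC.Poly.append (NPC.Poly.snd NPC.Poly.id) (NPC.Poly.const _)))
      (NPC.Poly.cons (NPC.Poly.append
        (NPC.Poly.map (l := fun A : List (List Bool) => List.range A.length)
          (F := fun (_ : List (List Bool)) (_ : ℕ) => false)
          (NPC.Poly.range_length NPC.Poly.id) (NPC.Poly.const _))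
        (NPC.Poly.const _)) (NPC.Poly.cons (NPC.Poly.append
        (NPC.Poly.map (l := fun A : List (List Bool) => List.range A.length)
          (F := fun (_ : List (List Bool)) (_ : ℕ) => true)
          (NPC.Poly.range_length NPC.Poly.id) (NPC.Poly.const _))
        (NPC.Poly.const _)) (NPC.Poly.const [])))

end Pool.Agent.W349.HTPadd
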