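import Pool.Agent.W749.NM.Stm
import Pool.Agent.W426.SM.RootE

/-!
# Project NM, part RCORE (adapted from `Pool.Agent.W426.SM.root_core`)
-/

set_option autoImplicit false

namespace Pool.Agent.W349.NMRCore

open Finset
open Pool.Agent.W428.MOT (amin)
open Pool.Agent.W426.SM (gord ford face ff aff gord_le avoid weigh sum_sub_of_zero extract
  eval_aeval)
open Pool.Agent.W749.NM

/-! ### the no-residue lemma, variant -/

lemma RCW_var (hRC : S_RCW) (B : Type) [Fintype B] (η η' p : B → ℝ) (β : Polynomial ℂ)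
    {ι : Type} [Fintype ι]
    (Q : ι → Type) [∀ l, Fintype (Q l)] (P : ι → MvPolynomial B ℂ)
    (a : (l : ι) → Q l → ℝ) (ℓ : (l : ι) → Q l → B → ℝ) (ω : ι → B → ℝ)
    (hη : ∀ b, 0 < η' b) (hp : ∀ b, 0 < p b) (hω : ∀ l, ∑ b, η' b * ω l b < 0)
    (hq : ∀ l q, a l q ≠ 0 ∨ (0 < ∑ b, ℓ l q b * p b ∧ 0 ≤ ∑ b, ℓ l q b * ω l b) ∨
      (∑ b, ℓ l q b * p b < 0 ∧ ∑ b, ℓ l q b * ω l b ≤ 0))
    (hid : ∃ ε₀ : ℝ, 0 < ε₀ ∧ ∀ ε : ℝ, 0 < ε → ε < ε₀ → ∀ y : B → ℝ,
      β.eval (∑ b, (η b : ℂ) * (((ε * p b : ℝ) : ℂ) + y b * Complex.I)) /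
          ∏ b, (((ε * p b : ℝ) : ℂ) + y b * Complex.I) =
        ∑ l, MvPolynomial.eval (fun b => ((ε * p b : ℝ) : ℂ) + y b * Complex.I) (P l) /
          ∏ q, aff (a l q) (ℓ l q) (fun b => ((ε * p b : ℝ) : ℂ) + y b * Complex.I)) :
    β.eval 0 = 0 := by
  classical
  set sg : (l : ι) → Q l → ℝ := fun l q =>
    if a l q = 0 ∧ ∑ b, ℓ l q b * p b < 0 then -1 else 1 with hsg
  have hsg0 : ∀ l q, sg l q ≠ 0 := by
    intro l q; simp only [hsg]; split_ifs <;> norm_num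
  have haff : ∀ l q (z : B → ℂ), aff (a l q) (fun b => sg l q * ℓ l q b) z =
      (sg l q : ℂ) * aff (a l q) (ℓ l q) z := by
    intro l q z
    unfold aff
    rw [mul_add, Finset.mul_sum]
    congr 1
    · by_cases h : a l q = 0 ∧ ∑ b, ℓ l q b * p b < 0
      · rw [h.1]; simp
      · simp only [hsg, if_neg h]; simp
    · refine Finset.sum_congr rfl fun b _ => ?_
      push_cast; ring
  set eq := Fintype.equivFin ι with heq
  refine hRC B η η' p β (L := Fintype.card ι) (fun l => Fintype.card (Q (eq.symm l)))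
    (fun l => MvPolynomial.C (∏ q, (sg (eq.symm l) q : ℂ)) * P (eq.symm l))
    (fun l q => a (eq.symm l) ((Fintype.equivFin (Q (eq.symm l))).symm q))
    (fun l q b => sg (eq.symm l) ((Fintype.equivFin (Q (eq.symm l))).symm q) *
      ℓ (eq.symm l) ((Fintype.equivFin (Q (eq.symm l))).symm q) b)
    (fun l => ω (eq.symm l)) hη hp (fun l => hω _) ?_ ?_
  · intro l q
    generalize eq.symm l = l at q ⊢
    set q' := (Fintype.equivFin (Q l)).symm q with hq'
    rcases hq l q' with h | h | h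
    · exact Or.inl h
    · right
      have : sg l q' = 1 := by
        simp only [hsg]; rw [if_neg]; intro h2; exact absurd h2.2 (not_lt.mpr h.1.le)
      rw [this]; simpa using h
    · by_cases h0 : a l q' = 0
      · right
        have : sg l q' = -1 := by
          simp only [hsg]; rw [if_pos ⟨h0, h.1⟩]
        rw [this]
        have e1 : ∀ x : B → ℝ, ∑ b, -1 * ℓ l q' b * x b = - ∑ b, ℓ l q' b * x b := by
          intro x; rw [← Finset.sum_neg_distrib]; refine Finset.sum_congr rfl fun b _ => by ring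
        rw [e1, e1]
        exact ⟨by linarith [h.1], by linarith [h.2]⟩
      · exact Or.inl h0
  · obtain ⟨ε₀, h0, h⟩ := hid
    refine ⟨ε₀, h0, fun ε h1 h2 y => ?_⟩
    rw [h ε h1 h2 y]
    rw [← Equiv.sum_comp eq.symm]
    refine Finset.sum_congr rfl fun l _ => ?_
    generalize eq.symm l = l
    set z : B → ℂ := fun b => ((ε * p b : ℝ) : ℂ) + y b * Complex.I with hz
    have e : ∏ q : Fin (Fintype.card (Q l)), aff (a l ((Fintype.equivFin (Q l)).symm q))
        (fun b => sg l ((Fintype.equivFin (Q l)).symm q) *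
          ℓ l ((Fintype.equivFin (Q l)).symm q) b) z =
        ∏ q : Q l, aff (a l q) (fun b => sg l q * ℓ l q b) z :=
      Fintype.prod_equiv (Fintype.equivFin (Q l)).symm _ _ (fun q => rfl)
    rw [e, map_mul, MvPolynomial.eval_C]
    simp only [haff]
    rw [Finset.prod_mul_distrib]
    have hne : (∏ q, (sg l q : ℂ)) ≠ 0 := by
      rw [Finset.prod_ne_zero_iff]; intro q _; exact_mod_cast hsg0 l q
    rw [mul_div_mul_left _ _ hne]

/-! ### linear algebra -/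

section
variable {n k : ℕ} (A : Fin n → ℕ) (m : Fin k → Fin n → ℕ) (e : ℕ) (a : Fin n → ℕ)
  (F : Finset (Fin k))

lemma sum_face (hF : ∀ j ∈ F, face m a j) (x : Fin k → ℝ) (hx : ∀ j, j ∉ F → x j = 0) :
    ∑ j, x j * ((∑ i, a i * m j i : ℕ) : ℝ) = (∑ j, x j) * gord m a := by
  rw [Finset.sum_mul]
  refine Finset.sum_congr rfl fun j _ => ?_
  by_cases h : j ∈ F
  · rw [show ∑ i, a i * m j i = gord m a from hF j h]
  · rw [hx j h]; ring

variable {A m e a F} (t₀ : Fin k → ℝ) (Λ : Fin k → BF a F → ℝ)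

lemma s0_eq (hF : ∀ j ∈ F, face m a j) (he : 0 < e) (h2 : ∀ j, j ∉ F → t₀ j = 0)
    (h4 : ∀ i, a i ≠ 0 → (∑ j, t₀ j) / e * A i + ∑ j, t₀ j * m j i = -1) :
    (∑ j, t₀ j) / e * (ford A m e a : ℝ) = -((∑ i, a i : ℕ) : ℝ) := by
  have e1 := weigh A m a t₀ ((∑ j, t₀ j) / e)
  rw [sum_face m a F hF t₀ h2] at e1
  have e2 : ∑ i, (a i : ℝ) * ((∑ j, t₀ j) / e * A i + ∑ j, t₀ j * m j i) =
      -((∑ i, a i : ℕ) : ℝ) := by
    push_cast
    rw [← Finset.sum_neg_distrib]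
    refine Finset.sum_congr rfl fun i _ => ?_
    by_cases h : a i = 0
    · rw [h]; simp
    · rw [h4 i h]; ring
  rw [← e2, e1]
  unfold ford
  push_cast
  have : (e : ℝ) ≠ 0 := by positivity
  field_simp

lemma kap_inl (hF : ∀ j ∈ F, face m a j) (he : 0 < e)
    (h3 : ∀ j (h : j ∉ F) b, Λ j b = if b = Sum.inr ⟨j, h⟩ then -1 else 0)
    (h5 : ∀ i (h : a i ≠ 0) b, (∑ j, Λ j b) / e * A i + ∑ j, Λ j b * m j i =
        if b = Sum.inl ⟨i, h⟩ then 1 else 0) (i : {i : Fin n // a i ≠ 0}) :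
    (∑ j, Λ j (Sum.inl i)) / e * (ford A m e a : ℝ) = a i := by
  set b : BF a F := Sum.inl i with hb
  have e1 := weigh A m a (fun j => Λ j b) ((∑ j, Λ j b) / e)
  rw [sum_face m a F hF (fun j => Λ j b)
    (fun j hj => by rw [h3 j hj b, if_neg (by rw [hb]; exact Sum.inl_ne_inr)])] at e1
  have e2 : ∑ i', (a i' : ℝ) * ((∑ j, Λ j b) / e * A i' + ∑ j, Λ j b * m j i') = a i := by
    rw [Finset.sum_eq_single i.1]
    · rw [h5 i.1 i.2 b, if_pos hb, mul_one]
    · intro i' _ hne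
      by_cases h : a i' = 0
      · rw [h]; simp
      · rw [h5 i' h b, if_neg, mul_zero]
        rw [hb]; intro hc
        exact hne (congrArg Subtype.val (Sum.inl_injective hc)).symm
    · intro h; exact absurd (Finset.mem_univ _) h
  rw [← e2, e1]
  unfold ford
  push_cast
  have : (e : ℝ) ≠ 0 := by positivity
  field_simp

lemma kap_inr (hF : ∀ j ∈ F, face m a j) (he : 0 < e)
    (h3 : ∀ j (h : j ∉ F) b, Λ j b = if b = Sum.inr ⟨j, h⟩ then -1 else 0)
    (h5 : ∀ i (h : a i ≠ 0) b, (∑ j, Λ j b) / e * A i + ∑ j, Λ j b * m j i =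
        if b = Sum.inl ⟨i, h⟩ then 1 else 0) (l : {j : Fin k // j ∉ F}) :
    (∑ j, Λ j (Sum.inr l)) / e * (ford A m e a : ℝ) =
      ((∑ i, a i * m l i : ℕ) : ℝ) - gord m a := by
  set b : BF a F := Sum.inr l with hb
  have e1 := weigh A m a (fun j => Λ j b) ((∑ j, Λ j b) / e)
  have e3 : ∑ j, Λ j b * ((∑ i, a i * m j i : ℕ) : ℝ) =
      (∑ j, Λ j b) * gord m a - (((∑ i, a i * m l i : ℕ) : ℝ) - gord m a) := by
    rw [Finset.sum_mul, ← sub_eq_zero, ← sub_add, ← Finset.sum_sub_distrib]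
    rw [Finset.sum_eq_single l.1]
    · rw [h3 l.1 l.2 b, if_pos hb]; ring
    · intro j _ hne
      by_cases h : j ∈ F
      · rw [show ∑ i, a i * m j i = gord m a from hF j h]; ring
      · rw [h3 j h b, if_neg]; · ring
        rw [hb]; intro hc
        exact hne (congrArg Subtype.val (Sum.inr_injective hc)).symm
    · intro h; exact absurd (Finset.mem_univ _) h
  have e2 : ∑ i', (a i' : ℝ) * ((∑ j, Λ j b) / e * A i' + ∑ j, Λ j b * m j i') = 0 := by
    refine Finset.sum_eq_zero fun i' _ => ?_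
    by_cases h : a i' = 0
    · rw [h]; simp
    · rw [h5 i' h b, if_neg, mul_zero]
      rw [hb]; exact Sum.inr_ne_inl
  rw [e2, e3] at e1
  unfold ford
  push_cast at e1 ⊢
  have : (e : ℝ) ≠ 0 := by positivity
  field_simp
  field_simp at e1
  linarith

end

section
variable {n k : ℕ} {A : Fin n → ℕ} {m : Fin k → Fin n → ℕ} {e : ℕ} {a : Fin n → ℕ}
  {F : Finset (Fin k)}

/-- direction of a term -/
noncomputable def wdir (A : Fin n → ℕ) (m : Fin k → Fin n → ℕ) (a : Fin n → ℕ)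
    (F : Finset (Fin k)) (ω : Fin k → ℤ) : BF a F → ℝ
  | Sum.inl i => (((-(A i : ℤ) + ∑ j, ω j * m j i : ℤ)) : ℝ)
  | Sum.inr l => -(ω l : ℝ)

/-- `x` is the value of `κ · wdir`: here `c = 1` for the old terms, `A' = A`, and `c = 0` for the
new ones, `A' = 0`. -/
lemma eta_wdir (A A' : Fin n → ℕ) (m : Fin k → Fin n → ℕ) (e c : ℕ) (a : Fin n → ℕ)
    (F : Finset (Fin k)) (hF : ∀ j ∈ F, face m a j)
    (ω : Fin k → ℤ) (hω : ∑ j, ω j = -((e * c : ℕ) : ℤ)) (hA' : ∀ i, A' i = A i * c)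
    (κ : BF a F → ℝ)
    (h1 : ∀ i, κ (Sum.inl i) * (ford A m e a : ℝ) = a i)
    (h2 : ∀ l : {j : Fin k // j ∉ F}, κ (Sum.inr l) * (ford A m e a : ℝ) =
      ((∑ i, a i * m l i : ℕ) : ℝ) - gord m a) :
    (∑ b, κ b * wdir A' m a F ω b) * (ford A m e a : ℝ) = -(ford A m e a : ℝ) * c := by
  rw [Fintype.sum_sum_type, add_mul, Finset.sum_mul, Finset.sum_mul]
  have e1 : ∑ i : {i : Fin n // a i ≠ 0}, κ (Sum.inl i) * wdir A' m a F ω (Sum.inl i) *
      (ford A m e a : ℝ) =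
        ∑ i, (a i : ℝ) * ((-(c : ℝ)) * (A i : ℝ) + ∑ j, (ω j : ℝ) * m j i) := by
    rw [← sum_sub_of_zero (fun i => a i ≠ 0)]
    · refine Finset.sum_congr rfl fun i _ => ?_
      have : κ (Sum.inl i) * wdir A' m a F ω (Sum.inl i) * (ford A m e a : ℝ) =
        (κ (Sum.inl i) * (ford A m e a : ℝ)) * wdir A' m a F ω (Sum.inl i) := by ring
      rw [this, h1 i]
      simp only [wdir]; rw [hA']; push_cast; ring
    · intro i hi
      rw [not_not] at hi
      rw [hi]; simp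
  have e2 : ∑ l : {j : Fin k // j ∉ F}, κ (Sum.inr l) * wdir A' m a F ω (Sum.inr l) *
      (ford A m e a : ℝ) =
      ∑ j, -((((∑ i, a i * m j i : ℕ) : ℝ) - gord m a) * (ω j : ℝ)) := by
    rw [← sum_sub_of_zero (fun j => j ∉ F)]
    · refine Finset.sum_congr rfl fun l _ => ?_
      have : κ (Sum.inr l) * wdir A' m a F ω (Sum.inr l) * (ford A m e a : ℝ) =
        (κ (Sum.inr l) * (ford A m e a : ℝ)) * wdir A' m a F ω (Sum.inr l) := by ring
      rw [this, h2 l]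
      simp only [wdir]; ring
    · intro j hj
      rw [not_not] at hj
      rw [show ∑ i, a i * m j i = gord m a from hF j hj]; simp
  rw [e1, e2, weigh A m a (fun j => (ω j : ℝ)) (-(c : ℝ))]
  have e3 : ∑ j, -((((∑ i, a i * m j i : ℕ) : ℝ) - gord m a) * (ω j : ℝ)) =
      - ∑ j, (ω j : ℝ) * ((∑ i, a i * m j i : ℕ) : ℝ) + (∑ j, (ω j : ℝ)) * gord m a := by
    rw [Finset.sum_mul, ← Finset.sum_neg_distrib, ← Finset.sum_add_distrib]
    refine Finset.sum_congr rfl fun j _ => by ring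
  have e4 : ∑ j, (ω j : ℝ) = -((e : ℝ) * c) := by exact_mod_cast hω
  rw [e3, e4]
  unfold ford
  push_cast
  ring

end

/-! ### the terms -/

section
open MvPolynomial
variable {n k : ℕ} {a : Fin n → ℕ} {F : Finset (Fin k)}

noncomputable def tP (t₀ : Fin k → ℝ) (Λ : Fin k → BF a F → ℝ) (j : Fin k) :
    MvPolynomial (BF a F) ℂ := C (t₀ j : ℂ) + ∑ b, C (Λ j b : ℂ) * X b

noncomputable def sP (e : ℕ) (t₀ : Fin k → ℝ) (Λ : Fin k → BF a F → ℝ) :
    MvPolynomial (BF a F) ℂ :=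
  C (((∑ j, t₀ j) / e : ℝ) : ℂ) + ∑ b, C ((((∑ j, Λ j b) / e : ℝ)) : ℂ) * X b

noncomputable def vP (A : Fin n → ℕ) (m : Fin k → Fin n → ℕ) (e : ℕ) (t₀ : Fin k → ℝ)
    (Λ : Fin k → BF a F → ℝ) (i : Fin n) : MvPolynomial (BF a F) ℂ :=
  sP e t₀ Λ * C (A i : ℂ) + ∑ j, tP t₀ Λ j * C (m j i : ℂ)

noncomputable def tv (t₀ : Fin k → ℝ) (Λ : Fin k → BF a F → ℝ) (z : BF a F → ℂ) (j : Fin k) :
    ℂ := (t₀ j : ℂ) + ∑ b, (Λ j b : ℂ) * z b

lemma eval_tP (t₀ : Fin k → ℝ) (Λ : Fin k → BF a F → ℝ) (z : BF a F → ℂ) (j : Fin k) :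
    eval z (tP t₀ Λ j) = tv t₀ Λ z j := by
  simp [tP, tv]

lemma eval_sP {e : ℕ} (t₀ : Fin k → ℝ) (Λ : Fin k → BF a F → ℝ)
    (z : BF a F → ℂ) : eval z (sP e t₀ Λ) = (∑ j, tv t₀ Λ z j) / e := by
  simp only [sP, tv, map_add, map_sum, map_mul, eval_C, eval_X, Finset.sum_add_distrib]
  have h : ∑ j : Fin k, ∑ b : BF a F, (Λ j b : ℂ) * z b =
      ∑ b : BF a F, ∑ j : Fin k, (Λ j b : ℂ) * z b := Finset.sum_comm
  rw [h]
  push_cast
  rw [add_div]
  congr 1
  rw [Finset.sum_div]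
  refine Finset.sum_congr rfl fun b _ => ?_
  rw [← Finset.sum_mul]; ring

lemma eval_vP (A : Fin n → ℕ) (m : Fin k → Fin n → ℕ) {e : ℕ} (t₀ : Fin k → ℝ)
    (Λ : Fin k → BF a F → ℝ) (z : BF a F → ℂ) (i : Fin n) :
    eval z (vP A m e t₀ Λ i) =
      (∑ j, tv t₀ Λ z j) / e * A i + ∑ j, tv t₀ Λ z j * m j i := by
  simp only [vP, map_add, map_sum, map_mul, eval_C, eval_sP, eval_tP]

/-- on the coordinates -/
lemma v_coord (A : Fin n → ℕ) (m : Fin k → Fin n → ℕ) {e : ℕ} (t₀ : Fin k → ℝ)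
    (Λ : Fin k → BF a F → ℝ)
    (h4 : ∀ i, a i ≠ 0 → (∑ j, t₀ j) / e * A i + ∑ j, t₀ j * m j i = -1)
    (h5 : ∀ i (h : a i ≠ 0) b, (∑ j, Λ j b) / e * A i + ∑ j, Λ j b * m j i =
        if b = Sum.inl ⟨i, h⟩ then 1 else 0) (z : BF a F → ℂ) (i : {i : Fin n // a i ≠ 0}) :
    (∑ j, tv t₀ Λ z j) / e * A i + ∑ j, tv t₀ Λ z j * m j i = z (Sum.inl i) - 1 := by
  have e0 : (∑ j, tv t₀ Λ z j) / e * A i + ∑ j, tv t₀ Λ z j * m j i =
      (((∑ j, t₀ j) / e * A i + ∑ j, t₀ j * m j i : ℝ) : ℂ) +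
      ∑ b, (((∑ j, Λ j b) / e * A i + ∑ j, Λ j b * m j i : ℝ) : ℂ) * z b := by
    simp only [tv]
    push_cast
    simp only [Finset.sum_add_distrib, add_mul, add_div, Finset.sum_mul, Finset.sum_div]
    rw [Finset.sum_comm (s := (univ : Finset (Fin k))) (t := (univ : Finset (BF a F))),
      Finset.sum_comm (s := (univ : Finset (Fin k))) (t := (univ : Finset (BF a F)))]
    have e1 : ∑ x : BF a F, ∑ x_1 : Fin k, (Λ x_1 x : ℂ) * z x / e * (A i : ℂ) =
        ∑ x : BF a F, ∑ x_1 : Fin k, (Λ x_1 x : ℂ) / e * (A i : ℂ) * z x :=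
      Finset.sum_congr rfl fun x _ => Finset.sum_congr rfl fun y _ => by ring
    have e2 : ∑ x : BF a F, ∑ x_1 : Fin k, (Λ x_1 x : ℂ) * z x * (m x_1 i : ℂ) =
        ∑ x : BF a F, ∑ x_1 : Fin k, (Λ x_1 x : ℂ) * (m x_1 i : ℂ) * z x :=
      Finset.sum_congr rfl fun x _ => Finset.sum_congr rfl fun y _ => by ring
    rw [e1, e2]
    ring
  rw [e0, h4 i.1 i.2]
  have e3 : ∑ b, (((∑ j, Λ j b) / e * A i + ∑ j, Λ j b * m j i : ℝ) : ℂ) * z b =
      z (Sum.inl i) := by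
    rw [Finset.sum_eq_single (Sum.inl i)]
    · rw [h5 i.1 i.2, if_pos rfl]; simp
    · intro b _ hb
      rw [h5 i.1 i.2, if_neg hb]; simp
    · intro h; exact absurd (Finset.mem_univ _) h
  rw [e3]; push_cast; ring

lemma t_coord (t₀ : Fin k → ℝ) (Λ : Fin k → BF a F → ℝ)
    (h2 : ∀ j, j ∉ F → t₀ j = 0)
    (h3 : ∀ j (h : j ∉ F) b, Λ j b = if b = Sum.inr ⟨j, h⟩ then -1 else 0)
    (z : BF a F → ℂ) (j : {j : Fin k // j ∉ F}) :
    tv t₀ Λ z j = - z (Sum.inr j) := by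
  simp only [tv]
  rw [h2 j.1 j.2, Finset.sum_eq_single (Sum.inr j)]
  · rw [h3 j.1 j.2, if_pos rfl]; simp
  · intro b _ hb
    rw [h3 j.1 j.2, if_neg hb]; simp
  · intro h; exact absurd (Finset.mem_univ _) h

/-- which coordinates cancel -/
def cancel (a : Fin n → ℕ) (F : Finset (Fin k)) (ω : Fin k → ℤ) (α β : Fin n → ℕ) :
    BF a F → Prop
  | Sum.inl i => (β i : ℤ) - α i < 0
  | Sum.inr j => 0 < ω j

noncomputable def NB (t₀ : Fin k → ℝ) (Λ : Fin k → BF a F → ℝ) (ω : Fin k → ℤ) (j : Fin k) :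
    MvPolynomial (BF a F) ℂ :=
  ∏ r ∈ range (ω j).toNat, (tP t₀ Λ j - C (0 : ℂ) - C (r : ℂ))

noncomputable def NC (A : Fin n → ℕ) (m : Fin k → Fin n → ℕ) (e : ℕ) (t₀ : Fin k → ℝ)
    (Λ : Fin k → BF a F → ℝ)
    (α β : Fin n → ℕ) (i : Fin n) : MvPolynomial (BF a F) ℂ :=
  ∏ r ∈ range (α i), (vP A m e t₀ Λ i - C ((β i : ℂ) - α i) - C (r : ℂ))

noncomputable def Fac (A : Fin n → ℕ) (m : Fin k → Fin n → ℕ) (e : ℕ) (t₀ : Fin k → ℝ)
    (Λ : Fin k → BF a F → ℝ)
    (ω : Fin k → ℤ) (α β : Fin n → ℕ) : BF a F → MvPolynomial (BF a F) ℂ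
  | Sum.inl i => NC A m e t₀ Λ α β i
  | Sum.inr j => NB t₀ Λ ω j

open Classical in
lemma fac_div (A : Fin n → ℕ) (m : Fin k → Fin n → ℕ) {e : ℕ} (t₀ : Fin k → ℝ)
    (Λ : Fin k → BF a F → ℝ)
    (h2 : ∀ j, j ∉ F → t₀ j = 0)
    (h3 : ∀ j (h : j ∉ F) b, Λ j b = if b = Sum.inr ⟨j, h⟩ then -1 else 0)
    (h4 : ∀ i, a i ≠ 0 → (∑ j, t₀ j) / e * A i + ∑ j, t₀ j * m j i = -1)
    (h5 : ∀ i (h : a i ≠ 0) b, (∑ j, Λ j b) / e * A i + ∑ j, Λ j b * m j i =
        if b = Sum.inl ⟨i, h⟩ then 1 else 0)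
    (ω : Fin k → ℤ) (α β : Fin n → ℕ) (b : BF a F) :
    ∃ R : MvPolynomial (BF a F) ℂ, ∀ z : BF a F → ℂ,
      eval z (Fac A m e t₀ Λ ω α β b) =
        eval z R * (if cancel a F ω α β b then z b else 1) := by
  by_cases hc : cancel a F ω α β b
  · rcases b with i | j
    · have hc' : (β i : ℤ) - α i < 0 := hc
      obtain ⟨R, hR⟩ := extract (vP A m e t₀ Λ i) ((β i : ℂ) - α i) (α i) (α i - β i - 1)
        (by omega)
      refine ⟨R, fun z => ?_⟩
      simp only [Fac, NC]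
      rw [hR, map_mul, if_pos hc]
      congr 1
      simp only [map_sub, eval_C, eval_vP]
      rw [v_coord A m t₀ Λ h4 h5 z i]
      have : ((α i - β i - 1 : ℕ) : ℂ) = (α i : ℂ) - β i - 1 := by
        have h : β i + 1 ≤ α i := by omega
        rw [Nat.sub_sub, Nat.cast_sub h]; push_cast; ring
      rw [this]; ring
    · have hc' : 0 < ω j := hc
      obtain ⟨R, hR⟩ := extract (tP t₀ Λ j) 0 (ω j).toNat 0 (by omega)
      refine ⟨-R, fun z => ?_⟩
      simp only [Fac, NB]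
      rw [hR, map_mul, if_pos hc]
      simp only [map_sub, eval_C, eval_tP, map_neg]
      rw [t_coord t₀ Λ h2 h3 z j]
      push_cast; ring
  · refine ⟨Fac A m e t₀ Λ ω α β b, fun z => ?_⟩
    rw [if_neg hc, mul_one]

/-- index of the denominators -/
abbrev QQ (a : Fin n → ℕ) (F : Finset (Fin k)) (ω : Fin k → ℤ) : Type :=
  BF a F ⊕ (Σ j : Fin k, Fin (-(ω j)).toNat)

open Classical in
noncomputable def aQ (t₀ : Fin k → ℝ) (ω : Fin k → ℤ) (α β : Fin n → ℕ) : QQ a F ω → ℝ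
  | Sum.inl b => if cancel a F ω α β b then 1 else 0
  | Sum.inr q => t₀ q.1 + ((q.2 : ℕ) + 1)

open Classical in
noncomputable def lQ (Λ : Fin k → BF a F → ℝ) (ω : Fin k → ℤ) (α β : Fin n → ℕ) :
    QQ a F ω → BF a F → ℝ
  | Sum.inl b => if cancel a F ω α β b then 0 else Pi.single b 1
  | Sum.inr q => Λ q.1

open Classical in
lemma prod_aff (t₀ : Fin k → ℝ) (Λ : Fin k → BF a F → ℝ) (ω : Fin k → ℤ) (α β : Fin n → ℕ)
    (z : BF a F → ℂ) :
    ∏ q : QQ a F ω, aff (aQ t₀ ω α β q) (lQ Λ ω α β q) z =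
      (∏ b : BF a F, (if cancel a F ω α β b then 1 else z b)) *
        ∏ j, ∏ r ∈ range (-(ω j)).toNat, (tv t₀ Λ z j + (r + 1)) := by
  rw [Fintype.prod_sum_type, Fintype.prod_sigma]
  congr 1
  · refine Finset.prod_congr rfl fun b _ => ?_
    simp only [aff, aQ, lQ]
    by_cases h : cancel a F ω α β b
    · simp [h]
    · rw [if_neg h, if_neg h, if_neg h, Finset.sum_eq_single b]
      · simp
      · intro b' _ hb'
        rw [Pi.single_eq_of_ne hb']; simp
      · intro h; exact absurd (Finset.mem_univ _) h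
  · refine Finset.prod_congr rfl fun j _ => ?_
    rw [Finset.prod_range]
    refine Finset.prod_congr rfl fun r _ => ?_
    simp only [aff, aQ, lQ, tv]
    push_cast; ring

lemma prod_split (F : Finset (Fin k)) (f : Fin k → ℂ) :
    (∏ j ∈ F, f j) * ∏ j : {j // j ∉ F}, f j = ∏ j, f j := by
  rw [← Finset.prod_mul_prod_compl F f]
  congr 1
  exact (Finset.prod_subtype Fᶜ (by simp) f).symm

open Classical in
/-- one term of the functional equation -/
lemma term_eq (A : Fin n → ℕ) (m : Fin k → Fin n → ℕ) {e : ℕ} (t₀ : Fin k → ℝ)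
    (Λ : Fin k → BF a F → ℝ)
    (h2 : ∀ j, j ∉ F → t₀ j = 0)
    (h3 : ∀ j (h : j ∉ F) b, Λ j b = if b = Sum.inr ⟨j, h⟩ then -1 else 0)
    (h4 : ∀ i, a i ≠ 0 → (∑ j, t₀ j) / e * A i + ∑ j, t₀ j * m j i = -1)
    (h5 : ∀ i (h : a i ≠ 0) b, (∑ j, Λ j b) / e * A i + ∑ j, Λ j b * m j i =
        if b = Sum.inl ⟨i, h⟩ then 1 else 0)
    (P₀ : MvPolynomial (BF a F) ℂ) (ω : Fin k → ℤ) (α β : Fin n → ℕ) :
    ∃ P : MvPolynomial (BF a F) ℂ, ∀ z : BF a F → ℂ, (∀ b, z b ≠ 0) →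
      (eval z P₀ *
            (∏ j, ff (ω j) (tv t₀ Λ z j)) *
            ∏ i, ∏ r ∈ range (α i),
              ((∑ j, tv t₀ Λ z j) / e * A i + ∑ j, tv t₀ Λ z j * m j i -
                ((β i : ℂ) - α i) - r)) / ∏ b, z b =
        eval z P / ∏ q : QQ a F ω, aff (aQ t₀ ω α β q) (lQ Λ ω α β q) z := by
  have hF := fac_div A m t₀ Λ h2 h3 h4 h5 ω α β
  choose R hR using hF
  refine ⟨P₀ *
    (∏ j ∈ F, NB t₀ Λ ω j) * (∏ i : {i // ¬ a i ≠ 0}, NC A m e t₀ Λ α β i) *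
    ∏ b, R b, fun z hz => ?_⟩
  rw [prod_aff]
  simp only [map_mul, map_prod]
  set T : ℂ := ∑ j, tv t₀ Λ z j with hT
  -- numerators
  have eN : ∏ j, ff (ω j) (tv t₀ Λ z j) =
      ((∏ j ∈ F, eval z (NB t₀ Λ ω j)) *
        ∏ j : {j // j ∉ F}, eval z (NB t₀ Λ ω j)) /
        ∏ j, ∏ r ∈ range (-(ω j)).toNat, (tv t₀ Λ z j + (r + 1)) := by
    rw [prod_split F (fun j => eval z (NB t₀ Λ ω j)),
      ← Finset.prod_div_distrib]
    refine Finset.prod_congr rfl fun j _ => ?_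
    simp only [ff, NB, map_prod, map_sub, eval_C, eval_tP, sub_zero]
  have eC : ∏ i, ∏ r ∈ range (α i),
              (T / e * A i + ∑ j, tv t₀ Λ z j * m j i - ((β i : ℂ) - α i) - r) =
      (∏ i : {i // a i ≠ 0}, eval z (NC A m e t₀ Λ α β i)) *
        ∏ i : {i // ¬ a i ≠ 0}, eval z (NC A m e t₀ Λ α β i) := by
    rw [Fintype.prod_subtype_mul_prod_subtype (fun i => a i ≠ 0)
      (fun i => eval z (NC A m e t₀ Λ α β i))]
    refine Finset.prod_congr rfl fun i _ => ?_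
    simp only [NC, map_prod, map_sub, eval_C, eval_vP]
    rfl
  have eF : (∏ i : {i // a i ≠ 0}, eval z (NC A m e t₀ Λ α β i)) *
      (∏ j : {j // j ∉ F}, eval z (NB t₀ Λ ω j)) =
      (∏ b, eval z (R b)) * ∏ b : BF a F, (if cancel a F ω α β b then z b else 1) := by
    rw [← Finset.prod_mul_distrib]
    simp only [← hR]
    rw [Fintype.prod_sum_type]
    rfl
  have eZ : ∏ b, z b = (∏ b : BF a F, (if cancel a F ω α β b then z b else 1)) *
      ∏ b : BF a F, (if cancel a F ω α β b then 1 else z b) := by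
    rw [← Finset.prod_mul_distrib]
    refine Finset.prod_congr rfl fun b _ => ?_
    split_ifs <;> simp
  have hY : (∏ b : BF a F, (if cancel a F ω α β b then z b else 1)) ≠ 0 := by
    rw [Finset.prod_ne_zero_iff]
    intro b _
    split_ifs
    · exact hz b
    · exact one_ne_zero
  rw [eN, eC, eZ]
  set Y := ∏ b : BF a F, (if cancel a F ω α β b then z b else 1) with hYd
  set Zc := ∏ b : BF a F, (if cancel a F ω α β b then 1 else z b) with hZc
  set D := ∏ j, ∏ r ∈ range (-(ω j)).toNat, (tv t₀ Λ z j + (r + 1)) with hD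
  set RR := ∏ b, eval z (R b) with hRR
  set NBf := ∏ j ∈ F, eval z (NB t₀ Λ ω j)
  set NBn := ∏ j : {j // j ∉ F}, eval z (NB t₀ Λ ω j)
  set NC1 := ∏ i : {i // a i ≠ 0}, eval z (NC A m e t₀ Λ α β i)
  set NC2 := ∏ i : {i // ¬ a i ≠ 0}, eval z (NC A m e t₀ Λ α β i)
  set q1 := eval z P₀
  have e5 : q1 * (NBf * NBn / D) * (NC1 * NC2) / (Y * Zc) =
      (q1 * NBf * NC2 * (NC1 * NBn)) / (Y * (Zc * D)) := by
    rw [mul_div_assoc', div_mul_eq_mul_div, div_div]
    congr 1 <;> ring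
  rw [e5, eF]
  have e6 : q1 * NBf * NC2 * (RR * Y) = Y * (q1 * NBf * NC2 * RR) := by ring
  rw [e6, mul_div_mul_left _ _ hY]

end

/-! ### the contour argument -/

lemma mem_amin {n k : ℕ} {m : Fin k → Fin n → ℕ} {u : Fin n → ℕ} {j : Fin k} :
    j ∈ amin m u ↔ ∑ i, u i * m j i = gord m u := by
  simp [amin]

/-- the second weight -/
noncomputable def mu {n k : ℕ} (m : Fin k → Fin n → ℕ) (a u : Fin n → ℕ) :
    BF a (amin m u) → ℝ
  | Sum.inl _ => 0
  | Sum.inr l => ((∑ i, u i * m l i : ℕ) : ℝ) - gord m u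

lemma mu_wdir {n k : ℕ} (m : Fin k → Fin n → ℕ) (a u : Fin n → ℕ) (γ : Fin k → ℤ)
    (hu : ∀ i, 0 < u i) (h0 : ∑ j, γ j = 0) (h1 : ∀ i, 0 ≤ ∑ j, γ j * (m j i : ℤ))
    (h2 : ∃ i, 0 < ∑ j, γ j * (m j i : ℤ)) :
    ∑ b, mu m a u b * wdir 0 m a (amin m u) γ b < 0 := by
  rw [Fintype.sum_sum_type]
  have e1 : ∑ i : {i : Fin n // a i ≠ 0}, mu m a u (Sum.inl i) *
      wdir 0 m a (amin m u) γ (Sum.inl i) = 0 :=
    Finset.sum_eq_zero fun i _ => by simp only [mu, zero_mul]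
  have e2 : ∑ l : {j : Fin k // j ∉ amin m u}, mu m a u (Sum.inr l) *
      wdir 0 m a (amin m u) γ (Sum.inr l) =
      ∑ j, -((((∑ i, u i * m j i : ℕ) : ℝ) - gord m u) * (γ j : ℝ)) := by
    rw [← sum_sub_of_zero (fun j => j ∉ amin m u)]
    · refine Finset.sum_congr rfl fun l _ => ?_
      simp only [mu, wdir]; ring
    · intro j hj
      rw [not_not] at hj
      rw [mem_amin.mp hj]; simp
  have e3 : ∑ j, -((((∑ i, u i * m j i : ℕ) : ℝ) - gord m u) * (γ j : ℝ)) =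
      - ∑ j, (γ j : ℝ) * ((∑ i, u i * m j i : ℕ) : ℝ) + (∑ j, (γ j : ℝ)) * gord m u := by
    rw [Finset.sum_mul, ← Finset.sum_neg_distrib, ← Finset.sum_add_distrib]
    refine Finset.sum_congr rfl fun j _ => by ring
  have e4 : ∑ j, (γ j : ℝ) = 0 := by exact_mod_cast h0
  have e5 := weigh (fun _ => 0) m u (fun j => (γ j : ℝ)) 0
  rw [e1, e2, e3, e4, zero_mul, zero_add, add_zero, neg_lt_zero]
  have e6 : ∑ j, (γ j : ℝ) * ((∑ i, u i * m j i : ℕ) : ℝ) =
      ∑ i, (u i : ℝ) * ((∑ j, γ j * (m j i : ℤ) : ℤ) : ℝ) := by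
    have : ∑ i, (u i : ℝ) * ((∑ j, γ j * (m j i : ℤ) : ℤ) : ℝ) =
        ∑ i, (u i : ℝ) * (0 * (((fun _ => 0 : Fin n → ℕ) i : ℕ) : ℝ) +
          ∑ j, (γ j : ℝ) * m j i) := by
      refine Finset.sum_congr rfl fun i _ => ?_
      push_cast; ring
    rw [this, e5]; ring
  rw [e6]
  obtain ⟨i, hi⟩ := h2
  apply Finset.sum_pos'
  · intro i _
    have : (0 : ℝ) ≤ ((∑ j, γ j * (m j i : ℤ) : ℤ) : ℝ) := by exact_mod_cast h1 i
    positivity
  · refine ⟨i, Finset.mem_univ _, ?_⟩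
    have h3 : (0 : ℝ) < ((∑ j, γ j * (m j i : ℤ) : ℤ) : ℝ) := by exact_mod_cast hi
    have h4 : (0 : ℝ) < u i := by exact_mod_cast hu i
    exact mul_pos h4 h3

lemma lQ_single {n k : ℕ} {a : Fin n → ℕ} {F : Finset (Fin k)} (Λ : Fin k → BF a F → ℝ)
    (ω : Fin k → ℤ) (α β : Fin n → ℕ) (b' : BF a F) (hc : ¬ cancel a F ω α β b')
    (y : BF a F → ℝ) :
    ∑ b, lQ Λ ω α β (Sum.inl b') b * y b = y b' := by
  classical
  simp only [lQ, if_neg hc]
  rw [Finset.sum_eq_single b']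
  · simp
  · intro b'' _ hb
    rw [Pi.single_eq_of_ne hb, zero_mul]
  · intro h; exact absurd (Finset.mem_univ _) h

lemma split_div {ι κ : Type} [Fintype ι] [Fintype κ] (X : ι → ℂ) (Y : κ → ℂ) (Z : ℂ) :
    (∑ l, X l + ∑ l, Y l) / Z = ∑ l, X l / Z + ∑ l, Y l / Z := by
  rw [add_div, Finset.sum_div, Finset.sum_div]

theorem main (hRC : S_RCW) : S_RCore := by
  intro n k A m e a u he hu hray hford t₀ Λ p h1 h2 h3 h4 h5 h6 b L' L ac γ q ω α β hident
  obtain ⟨hγ0, hγ1, hγ2, hω1, hω2, hid⟩ := hident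
  classical
  have hF : ∀ j ∈ amin m u, face m a j := hray.2.2.1
  have hfR : (ford A m e a : ℝ) ≠ 0 := by exact_mod_cast hford.ne'
  have hfpos : (0 : ℝ) < ford A m e a := by exact_mod_cast hford
  have heR : (e : ℝ) ≠ 0 := by exact_mod_cast he.ne'
  have heC : (e : ℂ) ≠ 0 := by exact_mod_cast he.ne'
  have hs0 := s0_eq t₀ hF he h2 h4
  set s₀ : ℝ := (∑ j, t₀ j) / e with hs₀
  have hs0' : s₀ = -(((∑ i, a i : ℕ) : ℝ) / ford A m e a) := by
    field_simp; linarith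
  set κ : BF a (amin m u) → ℝ := fun b => (∑ j, Λ j b) / e with hκ
  have hκ1 : ∀ i : {i : Fin n // a i ≠ 0}, κ (Sum.inl i) * (ford A m e a : ℝ) = a i :=
    fun i => kap_inl Λ hF he h3 h5 i
  have hκ2 : ∀ l : {j : Fin k // j ∉ amin m u}, κ (Sum.inr l) * (ford A m e a : ℝ) =
      ((∑ i, a i * m l i : ℕ) : ℝ) - gord m a := fun l => kap_inr Λ hF he h3 h5 l
  have hdir : ∀ l, ∑ b, κ b * wdir A m a (amin m u) (ω l) b = -1 := by
    intro l
    have := eta_wdir A A m e 1 a (amin m u) hF (ω l) (by rw [hω1 l]; simp) (by simp) κ hκ1 hκ2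
    have h : (∑ b, κ b * wdir A m a (amin m u) (ω l) b + 1) * (ford A m e a : ℝ) = 0 := by
      push_cast at this; linarith
    rcases mul_eq_zero.mp h with h | h
    · linarith
    · exact absurd h hfR
  have hdir0 : ∀ l, ∑ b, κ b * wdir 0 m a (amin m u) (γ l) b = 0 := by
    intro l
    have := eta_wdir A 0 m e 0 a (amin m u) hF (γ l) (by rw [hγ0 l]; simp) (by simp) κ hκ1 hκ2
    have h : (∑ b, κ b * wdir 0 m a (amin m u) (γ l) b) * (ford A m e a : ℝ) = 0 := by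
      push_cast at this; linarith
    rcases mul_eq_zero.mp h with h | h
    · exact h
    · exact absurd h hfR
  -- the second weight
  set S : ℝ := ∑ l, |∑ b, mu m a u b * wdir A m a (amin m u) (ω l) b| with hS
  have hS0 : 0 ≤ S := Finset.sum_nonneg fun l _ => abs_nonneg _
  set θ : ℝ := 1 / (1 + S) with hθ
  have hθ0 : 0 < θ := by positivity
  have hθ1 : θ * S < 1 := by
    rw [hθ, one_div, inv_mul_lt_iff₀ (by positivity)]; linarith
  set η' : BF a (amin m u) → ℝ := fun b => κ b + θ * mu m a u b with hη'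
  have hη'sum : ∀ d : BF a (amin m u) → ℝ,
      ∑ b, η' b * d b = ∑ b, κ b * d b + θ * ∑ b, mu m a u b * d b := by
    intro d
    rw [Finset.mul_sum, ← Finset.sum_add_distrib]
    refine Finset.sum_congr rfl fun b _ => ?_
    simp only [hη']; ring
  have hη'pos : ∀ b, 0 < η' b := by
    intro b
    rcases b with i | l
    · have := hκ1 i
      have h0 : (0 : ℝ) < a i := by exact_mod_cast Nat.pos_of_ne_zero i.2
      rw [← this] at h0
      have := (pos_iff_pos_of_mul_pos h0).mpr hfpos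
      simp only [hη', mu]
      linarith
    · have h0 : 0 ≤ κ (Sum.inr l) := by
        have := hκ2 l
        have h1 : (gord m a : ℝ) ≤ ((∑ i, a i * m l i : ℕ) : ℝ) := by
          exact_mod_cast gord_le m a l
        by_contra hn
        push Not at hn
        have : κ (Sum.inr l) * (ford A m e a : ℝ) < 0 := mul_neg_of_neg_of_pos hn hfpos
        linarith
      have h1 : 0 < mu m a u (Sum.inr l) := by
        simp only [mu]
        have h1 := gord_le m u l
        have h2 : gord m u ≠ ∑ i, u i * m l i := fun h => l.2 (mem_amin.mpr h.symm)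
        have h3 : gord m u < ∑ i, u i * m l i := lt_of_le_of_ne h1 h2
        have : (gord m u : ℝ) < ((∑ i, u i * m l i : ℕ) : ℝ) := by exact_mod_cast h3
        linarith
      have := mul_pos hθ0 h1
      simp only [hη']
      linarith
  -- the directions agree
  have hωR : ∀ l, (∑ j, ((ω l j : ℤ) : ℝ)) = -(e : ℝ) := fun l => by exact_mod_cast hω1 l
  have hγR : ∀ l, (∑ j, ((γ l j : ℤ) : ℝ)) = 0 := fun l => by exact_mod_cast hγ0 l
  have hLdir : ∀ l j, j ∈ amin m u → (∃ r : ℕ, t₀ j = -((r : ℝ) + 1)) →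
      ∑ b, Λ j b * wdir A m a (amin m u) (ω l) b = ω l j := by
    intro l j hj hr
    have := (h6 j hj hr).2 (fun j => (ω l j : ℝ))
    rw [← this, Fintype.sum_sum_type]
    congr 1
    refine Finset.sum_congr rfl fun i _ => ?_
    congr 1
    simp only [wdir]
    rw [hωR l]
    push_cast
    rw [neg_div, div_self heR]
    ring
  have hLdir' : ∀ l j, j ∈ amin m u → (∃ r : ℕ, t₀ j = -((r : ℝ) + 1)) →
      ∑ b, Λ j b * wdir 0 m a (amin m u) (γ l) b = γ l j := by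
    intro l j hj hr
    have := (h6 j hj hr).2 (fun j => (γ l j : ℝ))
    rw [← this, Fintype.sum_sum_type]
    congr 1
    refine Finset.sum_congr rfl fun i _ => ?_
    congr 1
    simp only [wdir]
    rw [hγR l]
    push_cast
    simp
  set Ω : Fin L ⊕ Fin L' → Fin k → ℤ := Sum.elim ω γ with hΩ
  set al : Fin L ⊕ Fin L' → Fin n → ℕ := Sum.elim α (fun _ => 0) with hal
  set be : Fin L ⊕ Fin L' → Fin n → ℕ := Sum.elim β (fun _ => 0) with hbe
  set P₀ : Fin L ⊕ Fin L' → MvPolynomial (BF a (amin m u)) ℂ := Sum.elim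
    (fun l => Polynomial.aeval (sP e t₀ Λ) (q l) *
      (∏ r ∈ range e, (MvPolynomial.C (e : ℂ) * sP e t₀ Λ + MvPolynomial.C ((r : ℂ) + 1))))
    (fun l => MvPolynomial.C (-(ac l)) * Polynomial.aeval (sP e t₀ Λ) b) with hP₀
  set D : Fin L ⊕ Fin L' → BF a (amin m u) → ℝ := Sum.elim
    (fun l => wdir A m a (amin m u) (ω l)) (fun l => wdir 0 m a (amin m u) (γ l)) with hD
  have hDneg : ∀ l, ∑ b, η' b * D l b < 0 := by
    rintro (l | l)
    · rw [hη'sum]
      simp only [hD, Sum.elim_inl]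
      rw [hdir l]
      have e1 : θ * ∑ b, mu m a u b * wdir A m a (amin m u) (ω l) b ≤ θ * S := by
        apply mul_le_mul_of_nonneg_left _ hθ0.le
        refine le_trans (le_abs_self _) ?_
        exact Finset.single_le_sum
          (f := fun l => |∑ b, mu m a u b * wdir A m a (amin m u) (ω l) b|)
          (fun l _ => abs_nonneg _) (Finset.mem_univ l)
      linarith
    · rw [hη'sum]
      simp only [hD, Sum.elim_inr]
      rw [hdir0 l, zero_add]
      exact mul_neg_of_pos_of_neg hθ0 (mu_wdir m a u (γ l) hu (hγ0 l) (hγ1 l) (hγ2 l))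
  have hDL : ∀ l j, j ∈ amin m u → (∃ r : ℕ, t₀ j = -((r : ℝ) + 1)) →
      ∑ b, Λ j b * D l b = Ω l j := by
    rintro (l | l) j hj hr
    · exact hLdir l j hj hr
    · exact hLdir' l j hj hr
  have hDinl : ∀ l (i : {i : Fin n // a i ≠ 0}), ¬ ((be l i : ℤ) - al l i < 0) →
      0 ≤ D l (Sum.inl i) := by
    rintro (l | l) i hc'
    · simp only [hbe, hal, Sum.elim_inl] at hc'
      rw [hω2 l i] at hc'
      push Not at hc'
      simp only [hD, Sum.elim_inl, wdir]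
      exact_mod_cast hc'
    · simp only [hD, Sum.elim_inr, wdir]
      have := hγ1 l i
      have h : (0 : ℤ) ≤ -(((0 : Fin n → ℕ) (i : Fin n) : ℕ) : ℤ) + ∑ j, γ l j * (m j i : ℤ) := by
        simpa using this
      exact_mod_cast h
  have hDinr : ∀ l (j : {j : Fin k // j ∉ amin m u}), ¬ (0 < Ω l j) → 0 ≤ D l (Sum.inr j) := by
    rintro (l | l) j hc'
    · simp only [hΩ, Sum.elim_inl] at hc'
      push Not at hc'
      simp only [hD, Sum.elim_inl, wdir]
      have : ((ω l j : ℤ) : ℝ) ≤ 0 := by exact_mod_cast hc'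
      linarith
    · simp only [hΩ, Sum.elim_inr] at hc'
      push Not at hc'
      simp only [hD, Sum.elim_inr, wdir]
      have : ((γ l j : ℤ) : ℝ) ≤ 0 := by exact_mod_cast hc'
      linarith
  have hmain := fun l => term_eq A m t₀ Λ h2 h3 h4 h5 (P₀ l) (Ω l) (al l) (be l)
  choose P hP using hmain
  have key := RCW_var hRC (BF a (amin m u)) κ η' p
    (b.comp (Polynomial.X + Polynomial.C (s₀ : ℂ)))
    (fun l => QQ a (amin m u) (Ω l)) P (fun l => aQ t₀ (Ω l) (al l) (be l))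
    (fun l => lQ Λ (Ω l) (al l) (be l)) D hη'pos h1 hDneg ?_ ?_
  · rw [Polynomial.eval_comp] at key
    simp only [Polynomial.eval_add, Polynomial.eval_X, Polynomial.eval_C, zero_add] at key
    rw [hs0'] at key
    push_cast at key ⊢
    exact key
  · -- conditions on the forms
    intro l x
    rcases x with b' | x
    · by_cases hc : cancel a (amin m u) (Ω l) (al l) (be l) b'
      · left; simp [aQ, hc]
      · right; left
        rw [lQ_single Λ _ _ _ b' hc, lQ_single Λ _ _ _ b' hc]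
        refine ⟨h1 b', ?_⟩
        rcases b' with i | j
        · exact hDinl l i hc
        · exact hDinr l j hc
    · by_cases h0 : t₀ x.1 + ((x.2 : ℕ) + 1) = 0
      · right; right
        have hj : x.1 ∈ amin m u := by
          by_contra hn
          rw [h2 _ hn] at h0
          have : (0 : ℝ) < 0 + (((x.2 : ℕ) : ℝ) + 1) := by positivity
          linarith
        have hr : ∃ r : ℕ, t₀ x.1 = -((r : ℝ) + 1) := ⟨x.2, by linarith⟩
        have e1 := (h6 x.1 hj hr).1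
        have e2 := hDL l x.1 hj hr
        simp only [lQ]
        refine ⟨e1, ?_⟩
        rw [e2]
        have h3 : (x.2 : ℕ) < (-(Ω l x.1)).toNat := x.2.2
        have h4 : Ω l x.1 ≤ 0 := by omega
        exact_mod_cast h4
      · left; simpa [aQ] using h0
  · -- the identity
    have hev : ∀ᶠ ε : ℝ in nhdsWithin 0 (Set.Ioi 0), ∀ j : Fin k, ∀ r : ℕ,
        t₀ j + ε * (∑ b, Λ j b * p b) ≠ -((r : ℝ) + 1) := by
      rw [Filter.eventually_all]
      intro j
      apply avoid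
      rintro hr
      have hj : j ∈ amin m u := by
        by_contra hn
        obtain ⟨r, hr⟩ := hr
        rw [h2 _ hn] at hr
        have : (0 : ℝ) < (r : ℝ) + 1 := by positivity
        linarith
      exact (h6 j hj hr).1
    obtain ⟨ε₀, hε₀, hsub⟩ := mem_nhdsGT_iff_exists_Ioo_subset.mp hev
    refine ⟨ε₀, hε₀, fun ε hε1 hε2 y => ?_⟩
    have hε := hsub ⟨hε1, hε2⟩
    set z : BF a (amin m u) → ℂ := fun b => ((ε * p b : ℝ) : ℂ) + y b * Complex.I with hz
    have hzre : ∀ b, (z b).re = ε * p b := by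
      intro b; simp [hz]
    have hz0 : ∀ b, z b ≠ 0 := by
      intro b h
      have h' := congrArg Complex.re h
      rw [hzre b, Complex.zero_re] at h'
      exact absurd h' (mul_pos hε1 (h1 b)).ne'
    have ht : ∀ (j : Fin k) (r : ℕ), tv t₀ Λ z j ≠ -((r : ℂ) + 1) := by
      intro j r h
      apply hε j r
      have h' := congrArg Complex.re h
      simp only [tv, Complex.add_re, Complex.re_sum, Complex.ofReal_re, Complex.re_ofReal_mul,
        Complex.neg_re, Complex.natCast_re, Complex.one_re, hzre] at h'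
      rw [← h', Finset.mul_sum]
      congr 1
      refine Finset.sum_congr rfl fun b _ => by ring
    have hidz := hid (tv t₀ Λ z) ht
    have hs : (∑ j, tv t₀ Λ z j) / e = ∑ b, (κ b : ℂ) * z b + s₀ := by
      rw [← eval_sP (e := e) t₀ Λ z]
      simp only [sP, map_add, map_sum, map_mul, MvPolynomial.eval_C, MvPolynomial.eval_X, hκ, hs₀]
      ring
    rw [Polynomial.eval_comp]
    simp only [Polynomial.eval_add, Polynomial.eval_X, Polynomial.eval_C]
    rw [← hs]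
    have hidz' : b.eval ((∑ j, tv t₀ Λ z j) / e) =
        (∑ l, (q l).eval ((∑ j, tv t₀ Λ z j) / e) *
          (∏ r ∈ Finset.range e, ((∑ j, tv t₀ Λ z j) + (r + 1))) *
          (∏ j, ff (ω l j) (tv t₀ Λ z j)) *
          ∏ i, ∏ r ∈ Finset.range (α l i),
            ((∑ j, tv t₀ Λ z j) / e * A i + ∑ j, tv t₀ Λ z j * m j i -
              ((β l i : ℂ) - α l i) - r)) +
        ∑ l, (-(ac l)) * b.eval ((∑ j, tv t₀ Λ z j) / e) * ∏ j, ff (γ l j) (tv t₀ Λ z j) := by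
      have e0 : ∑ l, (-(ac l)) * b.eval ((∑ j, tv t₀ Λ z j) / e) *
          ∏ j, ff (γ l j) (tv t₀ Λ z j) =
          - b.eval ((∑ j, tv t₀ Λ z j) / e) * ∑ l, ac l * ∏ j, ff (γ l j) (tv t₀ Λ z j) := by
        rw [Finset.mul_sum]
        refine Finset.sum_congr rfl fun l _ => by ring
      rw [e0, ← hidz]; ring
    rw [hidz', split_div, Fintype.sum_sum_type]
    have e1 : ∀ r : ℕ, (e : ℂ) * ((∑ j, tv t₀ Λ z j) / e) + ((r : ℂ) + 1) =
        (∑ j, tv t₀ Λ z j) + (r + 1) := by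
      intro r; rw [mul_div_cancel₀ _ heC]
    congr 1
    · refine Finset.sum_congr rfl fun l _ => ?_
      rw [← hP (Sum.inl l) z hz0]
      simp only [hP₀, hΩ, hal, hbe, Sum.elim_inl, map_mul, map_prod, eval_aeval, eval_sP, map_add,
        MvPolynomial.eval_C, e1]
    · refine Finset.sum_congr rfl fun l _ => ?_
      rw [← hP (Sum.inr l) z hz0]
      simp only [hP₀, hΩ, hal, hbe, Sum.elim_inr, map_mul, eval_aeval, eval_sP,
        MvPolynomial.eval_C, Pi.zero_apply, Finset.range_zero, Finset.prod_empty,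
        Finset.prod_const_one, mul_one]

end Pool.Agent.W349.NMRCore
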