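import Pool.Agent.W749.JI.Stm
import Pool.Agent.W349.NMRCore

/-!
# Project JI, part RCORE0 (adapted from `Pool.Agent.W349.NMRCore`)
-/

set_option autoImplicit false

namespace W349.JI

open Finset
open Pool.Agent.W428.MOT (amin)
open Pool.Agent.W426.SM (gord ford face ff aff gord_le avoid weigh sum_sub_of_zero extract
  eval_aeval)
open Pool.Agent.W749.NM Pool.Agent.W749.JI Pool.Agent.W349.NMRCore

theorem main (hRC : S_RCW) : S_RCore0 := by
  intro n k m a u hu hray hgord t₀ Λ p h1 h2 h3 h4' h5' h6 b L' L ac γ q ω α β hident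
  obtain ⟨hγ0, hγ1, hγ2, hω1', hω2', hid'⟩ := hident
  classical
  obtain ⟨A, hA⟩ : ∃ A : Fin n → ℕ, A = fun _ => 0 := ⟨_, rfl⟩
  obtain ⟨e, he1⟩ : ∃ e : ℕ, e = 1 := ⟨_, rfl⟩
  have he : 0 < e := by omega
  have hfg : ford A m e a = gord m a := by
    unfold ford
    rw [hA, he1]
    simp
  have hford : 0 < ford A m e a := by rw [hfg]; exact hgord
  have h4 : ∀ i, a i ≠ 0 → (∑ j, t₀ j) / e * A i + ∑ j, t₀ j * m j i = -1 := by
    intro i hi
    rw [h4' i hi, hA]
    simp
  have h5 : ∀ i (h : a i ≠ 0) b, (∑ j, Λ j b) / e * A i + ∑ j, Λ j b * m j i =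
        if b = Sum.inl ⟨i, h⟩ then 1 else 0 := by
    intro i hi b
    rw [h5' i hi b, hA]
    simp
  have hω1 : ∀ l, ∑ j, ω l j = -(e : ℤ) := by
    intro l
    rw [hω1' l, he1]
    rfl
  have hω2 : ∀ l i, (β l i : ℤ) - α l i = -(A i : ℤ) + ∑ j, ω l j * m j i := by
    intro l i
    rw [hω2' l i, hA]
    simp
  have hid : ∀ t : Fin k → ℂ, (∀ (j : Fin k) (r : ℕ), t j ≠ -((r : ℂ) + 1)) → ∑ j, t j ≠ -1 →
    b.eval ((∑ j, t j) / e) * (1 + ∑ l, ac l * ∏ j, ff (γ l j) (t j)) =
      ∑ l, (q l).eval ((∑ j, t j) / e) *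
        (∏ j, ff (ω l j) (t j)) *
        ∏ i, ∏ r ∈ Finset.range (α l i),
          ((∑ j, t j) / e * A i + ∑ j, t j * m j i - ((β l i : ℂ) - α l i) - r) := by
    intro t ht1 ht2
    have := hid' t ht1 ht2
    rw [he1, hA]
    simpa using this
  have hF : ∀ j ∈ amin m u, face m a j := hray.2.2.1
  have hfR : (ford A m e a : ℝ) ≠ 0 := by exact_mod_cast hford.ne'
  have hfpos : (0 : ℝ) < ford A m e a := by exact_mod_cast hford
  have heR : (e : ℝ) ≠ 0 := by exact_mod_cast he.ne'
  have heC : (e : ℂ) ≠ 0 := by exact_mod_cast he.ne'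
  have hs0 := s0_eq t₀ hF he h2 h4
  set s₀ : ℝ := (∑ j, t₀ j) / e with hs₀
  have hs0' : s₀ = -(((∑ i, a i : ℕ) : ℝ) / ford A m e a) := by
    field_simp; linarith
  set κ : BF a (amin m u) → ℝ := fun b => (∑ j, Λ j b) / e with hκ
  have hκ1 : ∀ i : {i : Fin n // a i ≠ 0}, κ (Sum.inl i) * (ford A m e a : ℝ) = a i :=
    fun i => kap_inl Λ hF he h3 h5 i
  have hκ2 : ∀ l : {j : Fin k // j ∉ amin m u}, κ (Sum.inr l) * (ford A m e a : ℝ) =
      ((∑ i, a i * m l i : ℕ) : ℝ) - gord m a := fun l => kap_inr Λ hF he h3 h5 l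
  have hdir : ∀ l, ∑ b, κ b * wdir A m a (amin m u) (ω l) b = -1 := by
    intro l
    have := eta_wdir A A m e 1 a (amin m u) hF (ω l) (by rw [hω1 l]; simp) (by simp) κ hκ1 hκ2
    have h : (∑ b, κ b * wdir A m a (amin m u) (ω l) b + 1) * (ford A m e a : ℝ) = 0 := by
      push_cast at this; linarith
    rcases mul_eq_zero.mp h with h | h
    · linarith
    · exact absurd h hfR
  have hdir0 : ∀ l, ∑ b, κ b * wdir 0 m a (amin m u) (γ l) b = 0 := by
    intro l
    have := eta_wdir A 0 m e 0 a (amin m u) hF (γ l) (by rw [hγ0 l]; simp) (by simp) κ hκ1 hκ2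
    have h : (∑ b, κ b * wdir 0 m a (amin m u) (γ l) b) * (ford A m e a : ℝ) = 0 := by
      push_cast at this; linarith
    rcases mul_eq_zero.mp h with h | h
    · exact h
    · exact absurd h hfR
  -- the second weight
  set S : ℝ := ∑ l, |∑ b, mu m a u b * wdir A m a (amin m u) (ω l) b| with hS
  have hS0 : 0 ≤ S := Finset.sum_nonneg fun l _ => abs_nonneg _
  set θ : ℝ := 1 / (1 + S) with hθ
  have hθ0 : 0 < θ := by positivity
  have hθ1 : θ * S < 1 := by
    rw [hθ, one_div, inv_mul_lt_iff₀ (by positivity)]; linarith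
  set η' : BF a (amin m u) → ℝ := fun b => κ b + θ * mu m a u b with hη'
  have hη'sum : ∀ d : BF a (amin m u) → ℝ,
      ∑ b, η' b * d b = ∑ b, κ b * d b + θ * ∑ b, mu m a u b * d b := by
    intro d
    rw [Finset.mul_sum, ← Finset.sum_add_distrib]
    refine Finset.sum_congr rfl fun b _ => ?_
    simp only [hη']; ring
  have hη'pos : ∀ b, 0 < η' b := by
    intro b
    rcases b with i | l
    · have := hκ1 i
      have h0 : (0 : ℝ) < a i := by exact_mod_cast Nat.pos_of_ne_zero i.2
      rw [← this] at h0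
      have := (pos_iff_pos_of_mul_pos h0).mpr hfpos
      simp only [hη', mu]
      linarith
    · have h0 : 0 ≤ κ (Sum.inr l) := by
        have := hκ2 l
        have h1 : (gord m a : ℝ) ≤ ((∑ i, a i * m l i : ℕ) : ℝ) := by
          exact_mod_cast gord_le m a l
        by_contra hn
        push Not at hn
        have : κ (Sum.inr l) * (ford A m e a : ℝ) < 0 := mul_neg_of_neg_of_pos hn hfpos
        linarith
      have h1 : 0 < mu m a u (Sum.inr l) := by
        simp only [mu]
        have h1 := gord_le m u l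
        have h2 : gord m u ≠ ∑ i, u i * m l i := fun h => l.2 (mem_amin.mpr h.symm)
        have h3 : gord m u < ∑ i, u i * m l i := lt_of_le_of_ne h1 h2
        have : (gord m u : ℝ) < ((∑ i, u i * m l i : ℕ) : ℝ) := by exact_mod_cast h3
        linarith
      have := mul_pos hθ0 h1
      simp only [hη']
      linarith
  -- the directions agree
  have hωR : ∀ l, (∑ j, ((ω l j : ℤ) : ℝ)) = -(e : ℝ) := fun l => by exact_mod_cast hω1 l
  have hγR : ∀ l, (∑ j, ((γ l j : ℤ) : ℝ)) = 0 := fun l => by exact_mod_cast hγ0 l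
  have hLdir : ∀ l j, j ∈ amin m u → (∃ r : ℕ, t₀ j = -((r : ℝ) + 1)) →
      ∑ b, Λ j b * wdir A m a (amin m u) (ω l) b = ω l j := by
    intro l j hj hr
    have := (h6 j hj hr).2 (fun j => (ω l j : ℝ))
    rw [← this, Fintype.sum_sum_type]
    congr 1
    refine Finset.sum_congr rfl fun i _ => ?_
    congr 1
    simp only [wdir]
    rw [hA]
    push_cast
    ring
  have hLdir' : ∀ l j, j ∈ amin m u → (∃ r : ℕ, t₀ j = -((r : ℝ) + 1)) →
      ∑ b, Λ j b * wdir 0 m a (amin m u) (γ l) b = γ l j := by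
    intro l j hj hr
    have := (h6 j hj hr).2 (fun j => (γ l j : ℝ))
    rw [← this, Fintype.sum_sum_type]
    congr 1
    refine Finset.sum_congr rfl fun i _ => ?_
    congr 1
    simp only [wdir]
    push_cast
    simp
  set Ω : Fin L ⊕ Fin L' → Fin k → ℤ := Sum.elim ω γ with hΩ
  set al : Fin L ⊕ Fin L' → Fin n → ℕ := Sum.elim α (fun _ => 0) with hal
  set be : Fin L ⊕ Fin L' → Fin n → ℕ := Sum.elim β (fun _ => 0) with hbe
  set P₀ : Fin L ⊕ Fin L' → MvPolynomial (BF a (amin m u)) ℂ := Sum.elim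
    (fun l => Polynomial.aeval (sP e t₀ Λ) (q l))
    (fun l => MvPolynomial.C (-(ac l)) * Polynomial.aeval (sP e t₀ Λ) b) with hP₀
  set D : Fin L ⊕ Fin L' → BF a (amin m u) → ℝ := Sum.elim
    (fun l => wdir A m a (amin m u) (ω l)) (fun l => wdir 0 m a (amin m u) (γ l)) with hD
  have hDneg : ∀ l, ∑ b, η' b * D l b < 0 := by
    rintro (l | l)
    · rw [hη'sum]
      simp only [hD, Sum.elim_inl]
      rw [hdir l]
      have e1 : θ * ∑ b, mu m a u b * wdir A m a (amin m u) (ω l) b ≤ θ * S := by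
        apply mul_le_mul_of_nonneg_left _ hθ0.le
        refine le_trans (le_abs_self _) ?_
        exact Finset.single_le_sum
          (f := fun l => |∑ b, mu m a u b * wdir A m a (amin m u) (ω l) b|)
          (fun l _ => abs_nonneg _) (Finset.mem_univ l)
      linarith
    · rw [hη'sum]
      simp only [hD, Sum.elim_inr]
      rw [hdir0 l, zero_add]
      exact mul_neg_of_pos_of_neg hθ0 (mu_wdir m a u (γ l) hu (hγ0 l) (hγ1 l) (hγ2 l))
  have hDL : ∀ l j, j ∈ amin m u → (∃ r : ℕ, t₀ j = -((r : ℝ) + 1)) →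
      ∑ b, Λ j b * D l b = Ω l j := by
    rintro (l | l) j hj hr
    · exact hLdir l j hj hr
    · exact hLdir' l j hj hr
  have hDinl : ∀ l (i : {i : Fin n // a i ≠ 0}), ¬ ((be l i : ℤ) - al l i < 0) →
      0 ≤ D l (Sum.inl i) := by
    rintro (l | l) i hc'
    · simp only [hbe, hal, Sum.elim_inl] at hc'
      rw [hω2 l i] at hc'
      push Not at hc'
      simp only [hD, Sum.elim_inl, wdir]
      exact_mod_cast hc'
    · simp only [hD, Sum.elim_inr, wdir]
      have := hγ1 l i
      have h : (0 : ℤ) ≤ -(((0 : Fin n → ℕ) (i : Fin n) : ℕ) : ℤ) + ∑ j, γ l j * (m j i : ℤ) := by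
        simpa using this
      exact_mod_cast h
  have hDinr : ∀ l (j : {j : Fin k // j ∉ amin m u}), ¬ (0 < Ω l j) → 0 ≤ D l (Sum.inr j) := by
    rintro (l | l) j hc'
    · simp only [hΩ, Sum.elim_inl] at hc'
      push Not at hc'
      simp only [hD, Sum.elim_inl, wdir]
      have : ((ω l j : ℤ) : ℝ) ≤ 0 := by exact_mod_cast hc'
      linarith
    · simp only [hΩ, Sum.elim_inr] at hc'
      push Not at hc'
      simp only [hD, Sum.elim_inr, wdir]
      have : ((γ l j : ℤ) : ℝ) ≤ 0 := by exact_mod_cast hc'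
      linarith
  have hmain := fun l => term_eq A m t₀ Λ h2 h3 h4 h5 (P₀ l) (Ω l) (al l) (be l)
  choose P hP using hmain
  have key := RCW_var hRC (BF a (amin m u)) κ η' p
    (b.comp (Polynomial.X + Polynomial.C (s₀ : ℂ)))
    (fun l => QQ a (amin m u) (Ω l)) P (fun l => aQ t₀ (Ω l) (al l) (be l))
    (fun l => lQ Λ (Ω l) (al l) (be l)) D hη'pos h1 hDneg ?_ ?_
  · rw [Polynomial.eval_comp] at key
    simp only [Polynomial.eval_add, Polynomial.eval_X, Polynomial.eval_C, zero_add] at key
    rw [hs0', hfg] at key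
    push_cast at key ⊢
    exact key
  · -- conditions on the forms
    intro l x
    rcases x with b' | x
    · by_cases hc : cancel a (amin m u) (Ω l) (al l) (be l) b'
      · left; simp [aQ, hc]
      · right; left
        rw [lQ_single Λ _ _ _ b' hc, lQ_single Λ _ _ _ b' hc]
        refine ⟨h1 b', ?_⟩
        rcases b' with i | j
        · exact hDinl l i hc
        · exact hDinr l j hc
    · by_cases h0 : t₀ x.1 + ((x.2 : ℕ) + 1) = 0
      · right; right
        have hj : x.1 ∈ amin m u := by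
          by_contra hn
          rw [h2 _ hn] at h0
          have : (0 : ℝ) < 0 + (((x.2 : ℕ) : ℝ) + 1) := by positivity
          linarith
        have hr : ∃ r : ℕ, t₀ x.1 = -((r : ℝ) + 1) := ⟨x.2, by linarith⟩
        have e1 := (h6 x.1 hj hr).1
        have e2 := hDL l x.1 hj hr
        simp only [lQ]
        refine ⟨e1, ?_⟩
        rw [e2]
        have h3 : (x.2 : ℕ) < (-(Ω l x.1)).toNat := x.2.2
        have h4 : Ω l x.1 ≤ 0 := by omega
        exact_mod_cast h4
      · left; simpa [aQ] using h0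
  · -- the identity
    have hev : ∀ᶠ ε : ℝ in nhdsWithin 0 (Set.Ioi 0), ∀ j : Fin k, ∀ r : ℕ,
        t₀ j + ε * (∑ b, Λ j b * p b) ≠ -((r : ℝ) + 1) := by
      rw [Filter.eventually_all]
      intro j
      apply avoid
      rintro hr
      have hj : j ∈ amin m u := by
        by_contra hn
        obtain ⟨r, hr⟩ := hr
        rw [h2 _ hn] at hr
        have : (0 : ℝ) < (r : ℝ) + 1 := by positivity
        linarith
      exact (h6 j hj hr).1
    have hκp : 0 < ∑ b, κ b * p b := by
      obtain ⟨i₀, hi₀⟩ : ∃ i, a i ≠ 0 := Function.ne_iff.1 hray.1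
      have hκi : ∀ i : {i : Fin n // a i ≠ 0}, 0 < κ (Sum.inl i) := by
        intro i
        have := hκ1 i
        have h0 : (0 : ℝ) < a i := by exact_mod_cast Nat.pos_of_ne_zero i.2
        rw [← this] at h0
        exact (pos_iff_pos_of_mul_pos h0).mpr hfpos
      have hκl : ∀ b, 0 ≤ κ b := by
        rintro (i | l)
        · exact (hκi i).le
        · have := hκ2 l
          have h1 : (gord m a : ℝ) ≤ ((∑ i, a i * m l i : ℕ) : ℝ) := by
            exact_mod_cast gord_le m a l
          by_contra hn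
          push Not at hn
          have : κ (Sum.inr l) * (ford A m e a : ℝ) < 0 := mul_neg_of_neg_of_pos hn hfpos
          linarith
      apply Finset.sum_pos'
      · intro b _
        exact mul_nonneg (hκl b) (h1 b).le
      · exact ⟨Sum.inl ⟨i₀, hi₀⟩, Finset.mem_univ _, mul_pos (hκi _) (h1 _)⟩
    have hev2 : ∀ᶠ ε : ℝ in nhdsWithin 0 (Set.Ioi 0), s₀ + ε * (∑ b, κ b * p b) ≠ -1 := by
      rcases eq_or_ne s₀ (-1) with h | h
      · filter_upwards [self_mem_nhdsWithin] with ε hε
        rw [h]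
        have : 0 < ε * (∑ b, κ b * p b) := mul_pos hε hκp
        intro h'
        linarith
      · apply eventually_nhdsWithin_of_eventually_nhds
        have hc : ContinuousAt (fun ε : ℝ => s₀ + ε * (∑ b, κ b * p b)) 0 := by fun_prop
        exact hc.eventually_ne (by simpa using h)
    obtain ⟨ε₀, hε₀, hsub⟩ := mem_nhdsGT_iff_exists_Ioo_subset.mp (hev.and hev2)
    refine ⟨ε₀, hε₀, fun ε hε1 hε2 y => ?_⟩
    obtain ⟨hε, hεs⟩ := hsub ⟨hε1, hε2⟩
    set z : BF a (amin m u) → ℂ := fun b => ((ε * p b : ℝ) : ℂ) + y b * Complex.I with hz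
    have hzre : ∀ b, (z b).re = ε * p b := by
      intro b; simp [hz]
    have hz0 : ∀ b, z b ≠ 0 := by
      intro b h
      have h' := congrArg Complex.re h
      rw [hzre b, Complex.zero_re] at h'
      exact absurd h' (mul_pos hε1 (h1 b)).ne'
    have ht : ∀ (j : Fin k) (r : ℕ), tv t₀ Λ z j ≠ -((r : ℂ) + 1) := by
      intro j r h
      apply hε j r
      have h' := congrArg Complex.re h
      simp only [tv, Complex.add_re, Complex.re_sum, Complex.ofReal_re, Complex.re_ofReal_mul,
        Complex.neg_re, Complex.natCast_re, Complex.one_re, hzre] at h'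
      rw [← h', Finset.mul_sum]
      congr 1
      refine Finset.sum_congr rfl fun b _ => by ring
    have hs : (∑ j, tv t₀ Λ z j) / e = ∑ b, (κ b : ℂ) * z b + s₀ := by
      rw [← eval_sP (e := e) t₀ Λ z]
      simp only [sP, map_add, map_sum, map_mul, MvPolynomial.eval_C, MvPolynomial.eval_X, hκ, hs₀]
      ring
    have hsne : ∑ j, tv t₀ Λ z j ≠ -1 := by
      intro h
      apply hεs
      rw [h, he1] at hs
      have h' := congrArg Complex.re hs
      simp only [Complex.add_re, Complex.re_sum, Complex.ofReal_re, Complex.re_ofReal_mul,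
        Nat.cast_one, div_one, Complex.neg_re, Complex.one_re, hzre] at h'
      rw [h', Finset.mul_sum, add_comm]
      congr 1
      refine Finset.sum_congr rfl fun b _ => by ring
    have hidz := hid (tv t₀ Λ z) ht hsne
    rw [Polynomial.eval_comp]
    simp only [Polynomial.eval_add, Polynomial.eval_X, Polynomial.eval_C]
    rw [← hs]
    have hidz' : b.eval ((∑ j, tv t₀ Λ z j) / e) =
        (∑ l, (q l).eval ((∑ j, tv t₀ Λ z j) / e) *
          (∏ j, ff (ω l j) (tv t₀ Λ z j)) *
          ∏ i, ∏ r ∈ Finset.range (α l i),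
            ((∑ j, tv t₀ Λ z j) / e * A i + ∑ j, tv t₀ Λ z j * m j i -
              ((β l i : ℂ) - α l i) - r)) +
        ∑ l, (-(ac l)) * b.eval ((∑ j, tv t₀ Λ z j) / e) * ∏ j, ff (γ l j) (tv t₀ Λ z j) := by
      have e0 : ∑ l, (-(ac l)) * b.eval ((∑ j, tv t₀ Λ z j) / e) *
          ∏ j, ff (γ l j) (tv t₀ Λ z j) =
          - b.eval ((∑ j, tv t₀ Λ z j) / e) * ∑ l, ac l * ∏ j, ff (γ l j) (tv t₀ Λ z j) := by
        rw [Finset.mul_sum]
        refine Finset.sum_congr rfl fun l _ => by ring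
      rw [e0, ← hidz]; ring
    rw [hidz', split_div, Fintype.sum_sum_type]
    congr 1
    · refine Finset.sum_congr rfl fun l _ => ?_
      rw [← hP (Sum.inl l) z hz0]
      simp only [hP₀, hΩ, hal, hbe, Sum.elim_inl, eval_aeval, eval_sP]
    · refine Finset.sum_congr rfl fun l _ => ?_
      rw [← hP (Sum.inr l) z hz0]
      simp only [hP₀, hΩ, hal, hbe, Sum.elim_inr, map_mul, eval_aeval, eval_sP,
        MvPolynomial.eval_C, Pi.zero_apply, Finset.range_zero, Finset.prod_empty,
        Finset.prod_const_one, mul_one]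

end W349.JI
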