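import Pool.Agent.W749.JI.Stm
import Pool.Agent.W762.NMRLL

/-!
# Project JI, part RLLI (adapted from `Pool.Agent.W762.NMRLL`)
-/

set_option autoImplicit false

namespace W349.JIRLLI

open Pool.Agent.W426.SM Pool.Agent.W749.NM Pool.Agent.W85.SMRL Pool.Agent.W749.JI

theorem aux {n k : ℕ} (m : Fin k → Fin n → ℕ) (a : Fin n → ℕ)
    (F : Finset (Fin k)) (hray : RelRay m a F) (hgord : 0 < gord m a) :
    (∃ (t₀ : Fin k → ℝ) (Λ : Fin k → BF a F → ℝ) (p : BF a F → ℝ),
      (∀ b, 0 < p b) ∧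
      (∀ j, j ∉ F → t₀ j = 0) ∧
      (∀ j (h : j ∉ F) b, Λ j b = if b = Sum.inr ⟨j, h⟩ then -1 else 0) ∧
      (∀ i, a i ≠ 0 → ∑ j, t₀ j * m j i = -1) ∧
      (∀ i (h : a i ≠ 0) b, ∑ j, Λ j b * m j i = if b = Sum.inl ⟨i, h⟩ then 1 else 0) ∧
      (∀ j, j ∈ F → (∃ r : ℕ, t₀ j = -((r : ℝ) + 1)) →
        (∑ b, Λ j b * p b < 0) ∧
        ∀ ω : Fin k → ℝ,
          ∑ i : {i : Fin n // a i ≠ 0}, Λ j (Sum.inl i) * (∑ j', ω j' * m j' i) +
            ∑ l : {j : Fin k // j ∉ F}, Λ j (Sum.inr l) * (- ω l) = ω j)) ∨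
    (∃ i, a i ≠ 0 ∧ ∃ c : Fin k → ℕ, (∀ j, j ∈ F → m j i ≠ 0 → 1 ≤ c j) ∧
      ∑ j, c j * m j i = 1) := by
  classical
  obtain ⟨A, hA⟩ : ∃ A : Fin n → ℕ, A = fun _ => 0 := ⟨_, rfl⟩
  obtain ⟨e, he1⟩ : ∃ e : ℕ, e = 1 := ⟨_, rfl⟩
  have he : 0 < e := by omega
  have hford : 0 < ford A m e a := by
    unfold ford
    rw [hA, he1]
    simpa using hgord
  obtain ⟨ha0, hFne, hface, hrayu⟩ := hray
  have heQ : (e : ℚ) ≠ 0 := by exact_mod_cast he.ne'
  have heR : (e : ℝ) ≠ 0 := by exact_mod_cast he.ne'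
  obtain ⟨j₀, hj₀⟩ := hFne
  have hj₀f : ∑ i, a i * m j₀ i = gord m a := hface j₀ hj₀
  let M : BF a F → Fin k → ℚ := fun b j =>
    Sum.elim (fun i => (A i.1 : ℚ) / e + m j i.1) (fun l => if j = l.1 then -1 else 0) b
  have hM : ∀ X : BF a F → ℚ, (∀ j, ∑ b, X b * M b j = 0) → ∀ b, X b = 0 := by
    intro X hX
    simp only [Fintype.sum_sum_type, M, Sum.elim_inl, Sum.elim_inr] at hX
    let u : Fin n → ℚ := fun i => if h : a i ≠ 0 then X (Sum.inl ⟨i, h⟩) else 0
    have hsub : ∀ g : Fin n → ℚ, ∑ i : {i : Fin n // a i ≠ 0}, X (Sum.inl i) * g i.1 =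
        ∑ i, u i * g i := by
      intro g
      have h1 : ∑ i ∈ Finset.univ.filter (fun i => a i ≠ 0), u i * g i =
          ∑ i : {i : Fin n // a i ≠ 0}, u i.1 * g i.1 :=
        Finset.sum_subtype (Finset.univ.filter (fun i => a i ≠ 0)) (by simp) (fun i => u i * g i)
      have h2 : ∑ i ∈ Finset.univ.filter (fun i => a i ≠ 0), u i * g i = ∑ i, u i * g i := by
        apply Finset.sum_subset (Finset.subset_univ _)
        intro i _ hi
        have : ¬ a i ≠ 0 := by simpa using hi
        simp only [u, dif_neg this, zero_mul]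
      rw [← h2, h1]
      refine Finset.sum_congr rfl (fun i _ => ?_)
      simp only [u]
      rw [dif_pos i.2]
    have hfj : ∀ j, j ∈ F → ∑ i, u i * ((A i : ℚ) / e + m j i) = 0 := by
      intro j hj
      have h1 := hX j
      rw [hsub (fun i => (A i : ℚ) / e + m j i)] at h1
      have h2 : ∑ l : {j : Fin k // j ∉ F}, X (Sum.inr l) *
          (if j = l.1 then (-1 : ℚ) else 0) = 0 := by
        refine Finset.sum_eq_zero (fun l _ => ?_)
        rw [if_neg, mul_zero]
        rintro rfl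
        exact l.2 hj
      rw [h2, add_zero] at h1
      exact h1
    have hconst : ∀ j, j ∈ F → ∑ i, u i * m j i = - ∑ i, u i * ((A i : ℚ) / e) := by
      intro j hj
      have h1 := hfj j hj
      simp only [mul_add, Finset.sum_add_distrib] at h1
      linarith
    obtain ⟨r, hr⟩ := hrayu u (fun i hi => by simp [u, hi])
      (fun j hj j' hj' => by rw [hconst j hj, hconst j' hj'])
    have hr0 : r = 0 := by
      have h1 := hfj j₀ hj₀
      have h2 : ∑ i, u i * ((A i : ℚ) / e + m j₀ i) = r / e * (ford A m e a : ℚ) := by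
        have h3 : (ford A m e a : ℚ) = ∑ i, (a i : ℚ) * A i + e * ∑ i, (a i : ℚ) * m j₀ i := by
          unfold ford
          rw [← hj₀f]
          push_cast
          ring
        rw [h3, Finset.mul_sum, ← Finset.sum_add_distrib, Finset.mul_sum]
        refine Finset.sum_congr rfl (fun i _ => ?_)
        rw [hr i]
        field_simp
      rw [h2] at h1
      have h4 : (ford A m e a : ℚ) ≠ 0 := by exact_mod_cast hford.ne'
      rcases mul_eq_zero.1 h1 with h5 | h5
      · rcases div_eq_zero_iff.1 h5 with h6 | h6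
        · exact h6
        · exact absurd h6 heQ
      · exact absurd h5 h4
    have hXl : ∀ i, X (Sum.inl i) = 0 := by
      intro i
      have h1 := hr i.1
      rw [hr0, zero_mul] at h1
      simp only [u] at h1
      rw [dif_pos i.2] at h1
      exact h1
    rintro (i | l)
    · exact hXl i
    · have h1 := hX l.1
      rw [Finset.sum_eq_zero (fun i _ => by rw [hXl i, zero_mul]), zero_add,
        Finset.sum_eq_single l] at h1
      · simpa using h1
      · intro l' _ hne
        rw [if_neg, mul_zero]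
        intro h
        exact hne (Subtype.ext h).symm
      · simp
  obtain ⟨v, base, w, hv, hbase, hw, hid⟩ := ratl M hM (Sum.elim (fun _ => -1) (fun _ => 0))
  let t₀ : Fin k → ℝ := fun j => (base j : ℝ) + Real.sqrt 2 * w j
  let Λ : Fin k → BF a F → ℝ := fun j b => (v b j : ℝ)
  have hmu : ∀ (i : {i : Fin n // a i ≠ 0}) (t : Fin k → ℝ),
      (∑ j, t j) / e * A i.1 + ∑ j, t j * m j i.1 =
        ∑ j, ((M (Sum.inl i) j : ℚ) : ℝ) * t j := by
    intro i t
    simp only [M, Sum.elim_inl]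
    push_cast
    rw [Finset.sum_div, Finset.sum_mul, ← Finset.sum_add_distrib]
    exact Finset.sum_congr rfl (fun j _ => by ring)
  have hla : ∀ (l : {j : Fin k // j ∉ F}) (t : Fin k → ℝ),
      ∑ j, ((M (Sum.inr l) j : ℚ) : ℝ) * t j = - t l.1 := by
    intro l t
    simp only [M, Sum.elim_inr]
    rw [Finset.sum_eq_single l.1]
    · simp
    · intro j _ hne
      simp [hne]
    · simp
  have ht₀ : ∀ b, ∑ j, ((M b j : ℚ) : ℝ) * t₀ j =
      ((Sum.elim (fun _ => -1) (fun _ => 0) b : ℚ) : ℝ) := by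
    intro b
    have h1 : ∑ j, ((M b j : ℚ) : ℝ) * t₀ j =
        ((∑ j, M b j * base j : ℚ) : ℝ) + Real.sqrt 2 * ((∑ j, M b j * w j : ℚ) : ℝ) := by
      push_cast
      rw [Finset.mul_sum, ← Finset.sum_add_distrib]
      exact Finset.sum_congr rfl (fun j _ => by simp only [t₀]; ring)
    rw [h1, hbase b, hw b]
    simp
  have ht0mu : ∀ i (h : a i ≠ 0), (∑ j, t₀ j) / e * A i + ∑ j, t₀ j * m j i = -1 := by
    intro i h
    rw [hmu ⟨i, h⟩ t₀, ht₀]
    simp
  have ht0l : ∀ j, j ∉ F → t₀ j = 0 := by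
    intro j h
    have h1 := ht₀ (Sum.inr ⟨j, h⟩)
    rw [hla] at h1
    simp only [Sum.elim_inr, Rat.cast_zero, neg_eq_zero] at h1
    exact h1
  have hΛ : ∀ b b', ∑ j, ((M b' j : ℚ) : ℝ) * Λ j b = if b' = b then 1 else 0 := by
    intro b b'
    have h1 : ((∑ j, M b' j * v b j : ℚ) : ℝ) = ((if b' = b then 1 else 0 : ℚ) : ℝ) := by
      rw [hv b b']
    have h2 : ((if b' = b then 1 else 0 : ℚ) : ℝ) = if b' = b then 1 else 0 := by
      split_ifs <;> simp
    rw [h2, Rat.cast_sum] at h1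
    simp only [Rat.cast_mul] at h1
    exact h1
  have hw0 : ∀ j, (∃ r : ℕ, t₀ j = -((r : ℝ) + 1)) → w j = 0 := by
    rintro j ⟨r, hr⟩
    by_contra hne
    have h1 : Irrational ((base j : ℝ) + Real.sqrt 2 * w j) := by
      have h2 : Irrational (Real.sqrt 2 * (w j : ℝ)) :=
        irrational_sqrt_two.mul_ratCast hne
      exact h2.ratCast_add (base j)
    apply h1
    refine ⟨-((r : ℚ) + 1), ?_⟩
    rw [← show t₀ j = (base j : ℝ) + Real.sqrt 2 * w j from rfl, hr]
    push_cast
    ring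
  have hidR : ∀ j, w j = 0 → ∀ j', ∑ b, Λ j b * ((M b j' : ℚ) : ℝ) = if j = j' then 1 else 0 := by
    intro j hj j'
    have h1 : ((∑ b, v b j * M b j' : ℚ) : ℝ) = ((if j = j' then 1 else 0 : ℚ) : ℝ) := by
      rw [hid j hj j']
    have h2 : ((if j = j' then 1 else 0 : ℚ) : ℝ) = if j = j' then 1 else 0 := by
      split_ifs <;> simp
    rw [h2, Rat.cast_sum] at h1
    simp only [Rat.cast_mul] at h1
    exact h1
  rcases gordan (J := {j : Fin k // j ∈ F ∧ ∃ r : ℕ, t₀ j = -((r : ℝ) + 1)})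
    (fun j b => Λ j.1 b) with ⟨p, hp, hpJ⟩ | ⟨y, hy, hy0, hyX⟩
  · left
    refine ⟨t₀, Λ, p, hp, ht0l, ?_, ?_, ?_, ?_⟩
    · intro j h b
      have h1 := hΛ b (Sum.inr ⟨j, h⟩)
      rw [hla] at h1
      have h2 : (if b = Sum.inr ⟨j, h⟩ then (-1 : ℝ) else 0) =
          - (if (Sum.inr ⟨j, h⟩ : BF a F) = b then (1 : ℝ) else 0) := by
        by_cases hb : b = Sum.inr ⟨j, h⟩
        · rw [if_pos hb, if_pos hb.symm]
        · rw [if_neg hb, if_neg (fun h => hb h.symm), neg_zero]
      rw [h2, ← h1, neg_neg]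
    · intro i h
      have := ht0mu i h
      rw [hA] at this
      simpa using this
    · intro i h b
      have := hmu ⟨i, h⟩ (fun j => Λ j b)
      rw [hΛ, hA] at this
      simp only [Nat.cast_zero, mul_zero, zero_add] at this
      rw [this]
      simp only [eq_comm]
    · intro j hj hr
      refine ⟨hpJ ⟨j, hj, hr⟩, fun ω => ?_⟩
      have h1 : ∑ i : {i : Fin n // a i ≠ 0}, Λ j (Sum.inl i) *
              (∑ j', ω j' * m j' i) +
            ∑ l : {j : Fin k // j ∉ F}, Λ j (Sum.inr l) * (- ω l) =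
          ∑ b, Λ j b * ∑ j', ((M b j' : ℚ) : ℝ) * ω j' := by
        rw [Fintype.sum_sum_type]
        congr 1
        · refine Finset.sum_congr rfl (fun i _ => ?_)
          rw [← hmu, hA]
          simp
        · exact Finset.sum_congr rfl (fun l _ => by rw [hla])
      rw [h1]
      simp only [Finset.mul_sum]
      rw [Finset.sum_comm]
      have h2 : ∀ j', ∑ b, Λ j b * (((M b j' : ℚ) : ℝ) * ω j') =
          (if j = j' then 1 else 0) * ω j' := by
        intro j'
        rw [← hidR j (hw0 j hr) j', Finset.sum_mul]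
        exact Finset.sum_congr rfl (fun b _ => by ring)
      simp only [h2]
      simp
  · right
    have hkey : ∀ j', j' ∈ F →
        ∑ i : {i : Fin n // a i ≠ 0}, (∑ j, y j * Λ j.1 (Sum.inl i)) *
          ((M (Sum.inl i) j' : ℚ) : ℝ) = ∑ j, y j * (if j.1 = j' then 1 else 0) := by
      intro j' hj'
      have h1 : ∑ j, y j * (if j.1 = j' then (1 : ℝ) else 0) =
          ∑ b, (∑ j, y j * Λ j.1 b) * ((M b j' : ℚ) : ℝ) := by
        simp only [Finset.sum_mul]
        rw [Finset.sum_comm]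
        refine Finset.sum_congr rfl (fun j _ => ?_)
        rw [← hidR j.1 (hw0 j.1 j.2.2) j', Finset.mul_sum]
        exact Finset.sum_congr rfl (fun b _ => by ring)
      rw [h1, Fintype.sum_sum_type]
      have h2 : ∑ l : {j : Fin k // j ∉ F}, (∑ j, y j * Λ j.1 (Sum.inr l)) *
          ((M (Sum.inr l) j' : ℚ) : ℝ) = 0 := by
        refine Finset.sum_eq_zero (fun l _ => ?_)
        have h3 : M (Sum.inr l) j' = 0 := by
          simp only [M, Sum.elim_inr]
          rw [if_neg]
          rintro rfl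
          exact l.2 hj'
        rw [h3]
        simp
      rw [h2, add_zero]
    have hi0 : ∃ i : {i : Fin n // a i ≠ 0}, ∑ j, y j * Λ j.1 (Sum.inl i) ≠ 0 := by
      by_contra hcon
      push Not at hcon
      obtain ⟨j, hj⟩ := hy0
      have h1 := hkey j.1 j.2.1
      rw [Finset.sum_eq_zero (fun i _ => by rw [hcon i, zero_mul]),
        Finset.sum_eq_single j] at h1
      · simp at h1
        exact hj h1.symm
      · intro j'' _ hne
        rw [if_neg, mul_zero]
        intro h
        exact hne (Subtype.ext h)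
      · simp
    obtain ⟨i₀, hi₀⟩ := hi0
    have hY0 : 0 < ∑ j, y j * Λ j.1 (Sum.inl i₀) := lt_of_le_of_ne (hyX _) (Ne.symm hi₀)
    have hMm : ∀ (i : {i : Fin n // a i ≠ 0}) j, ((M (Sum.inl i) j : ℚ) : ℝ) = m j i.1 := by
      intro i j
      simp only [M, Sum.elim_inl, hA]
      push_cast
      simp
    have hpos : ∀ j₁, j₁ ∈ F → m j₁ i₀.1 ≠ 0 → ∃ r : ℕ, t₀ j₁ = -((r : ℝ) + 1) := by
      intro j₁ hf hmj
      by_contra hr
      have h1 := hkey j₁ hf
      have h2 : ∑ j : {j : Fin k // j ∈ F ∧ ∃ r : ℕ, t₀ j = -((r : ℝ) + 1)},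
          y j * (if j.1 = j₁ then (1 : ℝ) else 0) = 0 := by
        refine Finset.sum_eq_zero (fun j _ => ?_)
        rw [if_neg, mul_zero]
        intro h
        exact hr (h ▸ j.2.2)
      rw [h2] at h1
      have h3 : ∀ i : {i : Fin n // a i ≠ 0}, 0 ≤ ((M (Sum.inl i) j₁ : ℚ) : ℝ) := by
        intro i
        rw [hMm]
        positivity
      have h4 := (Finset.sum_eq_zero_iff_of_nonneg
        (fun i _ => mul_nonneg (hyX (Sum.inl i)) (h3 i))).1 h1 i₀ (Finset.mem_univ _)
      rcases mul_eq_zero.1 h4 with h5 | h5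
      · exact absurd h5 hi₀
      · rw [hMm] at h5
        exact hmj (by exact_mod_cast h5)
    let c : Fin k → ℕ := fun j =>
      if h : j ∈ F ∧ ∃ r : ℕ, t₀ j = -((r : ℝ) + 1) then h.2.choose + 1 else 0
    have hc : ∀ j, t₀ j * m j i₀.1 = -((c j * m j i₀.1 : ℕ) : ℝ) := by
      intro j
      by_cases h : j ∈ F ∧ ∃ r : ℕ, t₀ j = -((r : ℝ) + 1)
      · simp only [c]
        rw [dif_pos h]
        have h1 := h.2.choose_spec
        conv_lhs => rw [h1]
        push_cast
        ring
      · simp only [c]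
        rw [dif_neg h]
        by_cases hf : j ∈ F
        · have h2 : m j i₀.1 = 0 := by
            by_contra h3
            exact h ⟨hf, hpos j hf h3⟩
          rw [h2]
          simp
        · rw [ht0l j hf]
          simp
    have h1 := ht0mu i₀.1 i₀.2
    rw [hA] at h1
    simp only [hc, Finset.sum_neg_distrib, Nat.cast_zero, mul_zero, zero_add] at h1
    have h2 : ∑ j, c j * m j i₀.1 = 1 := by
      have h3 : ((∑ j, c j * m j i₀.1 : ℕ) : ℝ) = 1 := by
        push_cast at h1 ⊢
        linarith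
      exact_mod_cast h3
    refine ⟨i₀.1, i₀.2, c, ?_, h2⟩
    intro j hj hmj
    simp only [c]
    rw [dif_pos ⟨hj, hpos j hj hmj⟩]
    omega

theorem main : S_RLLI := by
  intro n k r π m a F hm1 hray hgord hcard
  rcases aux (cay π m) a F hray hgord with h | ⟨i₀, hia, c, hc, h2⟩
  · exact h
  · exfalso
    induction i₀ using Fin.addCases with
    | left v =>
      obtain ⟨j, hj⟩ := exists_one c (fun j => cay π m j (Fin.castAdd r v)) h2
      simp only [cay, Fin.append_left] at hj
      exact hm1 j v hj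
    | right i =>
      have h3 := hcard i hia
      have h4 : ∀ j, j ∈ F.filter (fun j => π j = i) → 1 ≤ c j * cay π m j (Fin.natAdd n i) := by
        intro j hj
        rw [Finset.mem_filter] at hj
        have h5 : cay π m j (Fin.natAdd n i) = 1 := by
          simp only [cay, Fin.append_right]
          rw [if_pos hj.2]
        rw [h5, mul_one]
        exact hc j hj.1 (by rw [h5]; exact one_ne_zero)
      have h5 : (F.filter (fun j => π j = i)).card ≤ ∑ j, c j * cay π m j (Fin.natAdd n i) := by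
        calc (F.filter (fun j => π j = i)).card = ∑ j ∈ F.filter (fun j => π j = i), 1 := by simp
          _ ≤ ∑ j ∈ F.filter (fun j => π j = i), c j * cay π m j (Fin.natAdd n i) :=
              Finset.sum_le_sum h4
          _ ≤ _ := Finset.sum_le_sum_of_subset (Finset.subset_univ _)
      omega

end W349.JIRLLI
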